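import Pool.Agent.Lib.MP_1a91b9_nuX.HW.Main
import Pool.Agent.Lib.MP_1a91b9_nuX.HQ.Main
import Pool.Agent.Lib.MP_1a91b9_nuX.HS.Main
import Pool.Agent.Lib.MP_1a91b9_nuX.GL.EllA

/-!
# The Hecke character of the curve for the nine fields
-/

set_option autoImplicit false

namespace Pool.Agent.Lib.MP_1a91b9_nuX.HW

open NumberField Pool.Agent.Lib.MP_1a91b9_nuT

variable [CD]

/-- the nine fields -/
theorem ellK_all (h : ((CD.tr, CD.nm) : ℤ × ℤ) ∈ UF.qList ∨ (CD.tr = 0 ∧ CD.nm = 1) ∨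
    (CD.tr = 1 ∧ CD.nm = 1)) : GL.EllK := by
  rcases h with h | ⟨h1, h2⟩ | ⟨h1, h2⟩
  · exact GL.ellK_two h
  · exact GL.ellK_four h1 h2
  · exact GL.ellK_six h1 h2

/-- **The Hecke character of the curve.** -/
theorem hdat_all (h : ((CD.tr, CD.nm) : ℤ × ℤ) ∈ UF.qList ∨ (CD.tr = 0 ∧ CD.nm = 1) ∨
    (CD.tr = 1 ∧ CD.nm = 1)) : ∃ (f : 𝓞 K) (ps : Ideal (𝓞 K) → 𝓞 K), HDat f ps := by
  have hE := ellK_all h
  rcases h with h | ⟨h1, h2⟩ | ⟨h1, h2⟩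
  · exact hdat_q hE h
  · exact HQ.hdat_four h1 h2
  · exact HS.hdat_six h1 h2

end Pool.Agent.Lib.MP_1a91b9_nuX.HW
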