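import Mathlib

/-!
# The Kronecker character of a squarefree integer

`kr d n`: the quadratic symbol of `d` at the natural number `n`, a character modulo `cd d`.

PROOFS (K-free; Mathlib: `jacobiSym (a : ℤ) (b : ℕ) : ℤ`, file Mathlib/NumberTheory/LegendreSymbol/JacobiSymbol.lean, open NumberTheorySymbols for `J(a | b)`).
* `cd_ne`: `d.natAbs ≠ 0` and the second factor is 1 or 4.
* `kr_one`: `jacobiSym.one_left`, `jacobiSym.one_right` (after `Nat.cast_one`).
* `kr_mul`: `jacobiSym.mul_left` (with `Nat.cast_mul`) and `jacobiSym.mul_right` (needs `NeZero m`, `NeZero n`: `have : NeZero m := ⟨hm⟩`).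
* `kr_pow`: induction on `k` with `kr_mul`, `kr_one`, `pow_ne_zero`.
* `kr_sq1`: in both cases `n` is prime to `d.natAbs` (`Nat.Coprime.coprime_dvd_right`, `d.natAbs ∣ cd d`); `jacobiSym.eq_one_or_neg_one`
  (hypothesis: `a.gcd b = 1`, `Int.gcd`; use `Int.gcd_eq_natAbs`, `Int.natAbs_natCast`, `Nat.gcd_comm`).
* `kr_cong`: case `d % 4 = 1`: `cd d = d.natAbs`, `(n : ℤ) ≡ 1 mod d.natAbs` so `jacobiSym.mod_left'` (or `mod_left`) and `one_left`.
  Case `d % 4 ≠ 1`: `cd d = d.natAbs * 4` divides `n - 1`. If `d = 0` then `n = 1`: `jacobiSym.one_right`. Otherwise `n` is odd,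
  `jacobiSym.mod_right d hodd : J(d | n) = J(d | n % (4 * d.natAbs))` and `n % (4 * d.natAbs) = 1` (from the divisibility; `4 * d.natAbs ≥ 4`).
* `kr_prime`: `l` is odd, prime to `d`. If `d % 4 ≠ 1`: by definition. If `d % 4 = 1`: (i) `0 ≤ d`: `d = d.natAbs`, `d.natAbs % 4 = 1`,
  `jacobiSym.quadratic_reciprocity_one_mod_four`. (ii) `d < 0`: `d = -1 * d.natAbs`, `d.natAbs % 4 = 3`,
  `J(d | l) = J(-1 | l) * J(d.natAbs | l)` (`mul_left`), `J(-1 | l) = χ₄ l` (`jacobiSym.at_neg_one`). If `l % 4 = 1`: `χ₄ l = 1`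
  (`ZMod.χ₄_nat_one_mod_four`) and reciprocity `quadratic_reciprocity_one_mod_four'`; if `l % 4 = 3`: `χ₄ l = -1`
  (`ZMod.χ₄_nat_three_mod_four`) and `quadratic_reciprocity_three_mod_four` gives another sign.
* `kr_two_one`, `kr_two_five`: `d % 4 = 1`, `kr d 2 = J(2 | d.natAbs) = χ₈ d.natAbs` (`jacobiSym.at_two`, odd); for `d % 8 = 1`: `d.natAbs % 8` is `1` or `7`,
  for `d % 8 = 5`: it is `5` or `3`; `ZMod.χ₈_nat_eq_if_mod_eight`.
-/

set_option autoImplicit false

namespace Pool.Agent.Lib.MP_1a91b9_nuX.HW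

/-- the modulus -/
def cd (d : ℤ) : ℕ := d.natAbs * (if d % 4 = 1 then 1 else 4)

/-- the Kronecker symbol of `d` at `n` -/
def kr (d : ℤ) (n : ℕ) : ℤ := if d % 4 = 1 then jacobiSym (n : ℤ) d.natAbs else jacobiSym d n

theorem cd_ne {d : ℤ} (hd : d ≠ 0) : cd d ≠ 0 := by
  unfold cd
  refine Nat.mul_ne_zero (Int.natAbs_ne_zero.2 hd) ?_
  split_ifs <;> norm_num

theorem kr_one (d : ℤ) : kr d 1 = 1 := by
  unfold kr
  split_ifs
  · rw [Nat.cast_one, jacobiSym.one_left]
  · rw [jacobiSym.one_right]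

theorem kr_mul (d : ℤ) {m n : ℕ} (hm : m ≠ 0) (hn : n ≠ 0) : kr d (m * n) = kr d m * kr d n := by
  unfold kr
  split_ifs
  · rw [Nat.cast_mul, jacobiSym.mul_left]
  · rw [jacobiSym.mul_right' d hm hn]

theorem kr_pow (d : ℤ) {m : ℕ} (hm : m ≠ 0) (k : ℕ) : kr d (m ^ k) = kr d m ^ k := by
  induction k with
  | zero => rw [pow_zero, pow_zero, kr_one]
  | succ k ih => rw [pow_succ, pow_succ, kr_mul d (pow_ne_zero k hm) hm, ih]

theorem kr_sq1 {d : ℤ} {n : ℕ} (h : n.Coprime (cd d)) : kr d n = 1 ∨ kr d n = -1 := by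
  have h1 : n.Coprime d.natAbs := Nat.Coprime.coprime_dvd_right (Dvd.intro _ rfl) h
  unfold kr
  split_ifs
  · apply jacobiSym.eq_one_or_neg_one
    rw [Int.gcd_natCast_natCast]
    exact h1
  · apply jacobiSym.eq_one_or_neg_one
    rw [Int.gcd_eq_natAbs, Int.natAbs_natCast, Nat.gcd_comm]
    exact h1

theorem kr_cong {d : ℤ} {n : ℕ} (hn : n ≠ 0) (h : (cd d : ℤ) ∣ (n : ℤ) - 1) : kr d n = 1 := by
  unfold kr
  split_ifs with h4
  · have h1 : (cd d : ℤ) = (d.natAbs : ℤ) := by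
      unfold cd
      rw [if_pos h4, mul_one]
    rw [h1] at h
    have h2 : (n : ℤ) % (d.natAbs : ℤ) = 1 % (d.natAbs : ℤ) :=
      Int.emod_eq_emod_iff_emod_sub_eq_zero.2 (Int.emod_eq_zero_of_dvd h)
    rw [jacobiSym.mod_left' h2, jacobiSym.one_left]
  · have h1 : (cd d : ℤ) = ((4 * d.natAbs : ℕ) : ℤ) := by
      unfold cd
      rw [if_neg h4, mul_comm]
    rw [h1] at h
    rcases eq_or_ne d 0 with h0 | h0
    · subst h0
      have h2 : (n : ℤ) - 1 = 0 := by
        refine zero_dvd_iff.1 ?_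
        simpa only [Int.natAbs_zero, mul_zero, Nat.cast_zero] using h
      have h3 : n = 1 := by omega
      rw [h3, jacobiSym.one_right]
    · have h5 : 0 < d.natAbs := Int.natAbs_pos.2 h0
      have hodd : Odd n := by
        obtain ⟨c, hc⟩ := h
        rw [Nat.odd_iff]
        have h6 : (n : ℤ) = 1 + 4 * ((d.natAbs : ℤ) * c) := by
          rw [Nat.cast_mul, Nat.cast_ofNat, mul_assoc] at hc
          linarith
        omega
      have h7 : 1 ≡ n [MOD 4 * d.natAbs] := Nat.modEq_iff_dvd.2 (by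
        rw [Nat.cast_one]
        exact h)
      have h8 : n % (4 * d.natAbs) = 1 := by
        rw [← h7]
        exact Nat.mod_eq_of_lt (by omega)
      rw [jacobiSym.mod_right d hodd, h8, jacobiSym.one_right]

theorem kr_prime {d : ℤ} {l : ℕ} (hl : l.Prime) (h : ¬ (l : ℤ) ∣ 2 * d) :
    kr d l = jacobiSym d l := by
  have h2 : l ≠ 2 := by
    rintro rfl
    exact h (Dvd.intro _ rfl)
  have hodd : Odd l := hl.odd_of_ne_two h2
  unfold kr
  split_ifs with h4
  · rcases le_or_gt 0 d with hd | hd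
    · have h5 : (d.natAbs : ℤ) = d := Int.natAbs_of_nonneg hd
      have h6 : d.natAbs % 4 = 1 := by omega
      have h7 := jacobiSym.quadratic_reciprocity_one_mod_four h6 hodd
      rw [h5] at h7
      exact h7.symm
    · have h5 : (d.natAbs : ℤ) = -d := by omega
      have h6 : d.natAbs % 4 = 3 := by omega
      have h7 : jacobiSym d l = jacobiSym (-1) l * jacobiSym (d.natAbs : ℤ) l := by
        rw [← jacobiSym.mul_left, h5]
        congr 1
        ring
      rw [h7, jacobiSym.at_neg_one hodd]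
      have h8 : l % 4 = 1 ∨ l % 4 = 3 := Nat.odd_mod_four_iff.1 (Nat.odd_iff.1 hodd)
      rcases h8 with h8 | h8
      · rw [ZMod.χ₄_nat_one_mod_four h8, one_mul]
        have h9 : Odd d.natAbs := by
          rw [Nat.odd_iff]
          omega
        exact (jacobiSym.quadratic_reciprocity_one_mod_four' h9 h8).symm
      · rw [ZMod.χ₄_nat_three_mod_four h8, jacobiSym.quadratic_reciprocity_three_mod_four h6 h8]
        ring
  · rfl

theorem kr_two_one {d : ℤ} (h : d % 8 = 1) : kr d 2 = 1 := by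
  have h4 : d % 4 = 1 := by omega
  have hodd : Odd d.natAbs := by
    rw [Nat.odd_iff]
    omega
  have h5 : d.natAbs % 8 = 1 ∨ d.natAbs % 8 = 7 := by omega
  have h6 : ¬ d.natAbs % 2 = 0 := by omega
  unfold kr
  rw [if_pos h4, Nat.cast_ofNat, jacobiSym.at_two hodd, ZMod.χ₈_nat_eq_if_mod_eight, if_neg h6,
    if_pos h5]

theorem kr_two_five {d : ℤ} (h : d % 8 = 5) : kr d 2 = -1 := by
  have h4 : d % 4 = 1 := by omega
  have hodd : Odd d.natAbs := by
    rw [Nat.odd_iff]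
    omega
  have h5 : ¬ (d.natAbs % 8 = 1 ∨ d.natAbs % 8 = 7) := by omega
  have h6 : ¬ d.natAbs % 2 = 0 := by omega
  unfold kr
  rw [if_pos h4, Nat.cast_ofNat, jacobiSym.at_two hodd, ZMod.χ₈_nat_eq_if_mod_eight, if_neg h6,
    if_neg h5]

end Pool.Agent.Lib.MP_1a91b9_nuX.HW
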