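import Pool.Agent.Lib.MP_1a91b9_nuX.GL.Api
import Pool.Agent.Lib.MP_1a91b9_nuX.DB.Ext
import Pool.Agent.Lib.MP_1a91b9_nuX.HW.Kr

/-!
# The fields `K` with the units `1`, `-1`: ramification and the quadratic character

`Rm s p`: the field is ramified at `p` only, `s` is a square root of `-p`.
`Sg s k p ε`: `ε` is a quadratic character modulo `s ^ k`, odd and invariant under the conjugation.
`Dd s k p ε R d D`: `D` is a square root of the squarefree integer `d` on which the automorphisms of the algebraic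
closure act by `ε` of their action on the point `R` of order `s ^ k`.
-/

set_option autoImplicit false

namespace Pool.Agent.Lib.MP_1a91b9_nuX.HW

open NumberField IsDedekindDomain WeierstrassCurve Pool.Agent.Lib.MP_1a91b9_nuT
open Pool.Agent.Lib.MP_1a91b9_nuX.DB Pool.Agent.Lib.MP_1a91b9_nuX.GL

variable [CD]

/-- the field `K` is ramified exactly at `p`, its units are `1`, `-1` -/
structure Rm (s : 𝓞 K) (p : ℕ) : Prop where
  pp : p.Prime
  ps : Prime s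
  sq : s ^ 2 = -(p : 𝓞 K)
  nm : Ideal.absNorm (Ideal.span {s}) = p
  cjs : cj s = -s
  un : ∀ u : (𝓞 K)ˣ, u = 1 ∨ u = -1
  di : ∀ l : ℕ, l.Prime → l ≠ p → ¬ (l : ℤ) ∣ CD.tr ^ 2 - 4 * CD.nm

/-- the part of the conductor at `p` -/
def cp (p : ℕ) : ℕ := if p = 2 then 8 else p

/-- the quadratic character modulo `s ^ k` -/
structure Sg (s : 𝓞 K) (k p : ℕ) (ε : 𝓞 K → ℤ) : Prop where
  k0 : k ≠ 0
  n2 : ¬ s ^ k ∣ 2
  dv : s ^ k ∣ (cp p : 𝓞 K)
  mul : ∀ a b, ε (a * b) = ε a * ε b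
  cong : ∀ a b, s ^ k ∣ a - b → ε a = ε b
  sq1 : ∀ a, ¬ s ∣ a → ε a = 1 ∨ ε a = -1
  zero : ∀ a, s ∣ a → ε a = 0
  one : ε 1 = 1
  neg : ε (-1) = -1
  cj : ∀ a, ε (cj a) = ε a

/-- the quadratic field cut out by the character -/
structure Dd [DecidableEq Kb] (s : 𝓞 K) (k p : ℕ) (ε : 𝓞 K → ℤ) (R : Pt Kb) (d : ℤ) (D : Kb) :
    Prop where
  rm : Rm s p
  sg : Sg s k p ε
  ord : Ord (s ^ k) R
  sqf : Squarefree d
  np : ¬ (p : ℤ) ∣ d
  sqD : D ^ 2 = (d : Kb)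
  act : ∀ (σ : Kb ≃ₐ[K] Kb) (c : 𝓞 K), ga σ R = sm Kb c R → σ D = ((ε c : ℤ) : Kb) * D

/-- the conductor -/
def fc (d : ℤ) (p : ℕ) : ℕ := cp p * cd d

theorem Sg.ne_dvd {s : 𝓞 K} {k p : ℕ} {ε : 𝓞 K → ℤ} (h : Sg s k p ε) (hs : Prime s) {c : 𝓞 K}
    (hc : IsCoprime c (s ^ k)) : ¬ s ∣ c := by
  intro h1
  obtain ⟨x, y, hxy⟩ := hc
  have h2 : s ∣ 1 := by
    rw [← hxy]
    exact dvd_add (Dvd.dvd.mul_left h1 _) (Dvd.dvd.mul_left (dvd_pow_self s h.k0) _)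
  exact hs.not_isUnit (isUnit_of_dvd_one h2)

end Pool.Agent.Lib.MP_1a91b9_nuX.HW
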