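import Pool.Agent.Lib.MP_1a91b9_nuX.HW.SumB

/-!
# The action of the automorphisms on the point `R` and on the sums `Yi`

PROOFS.
* `gal_R`: `σ β`-torsion: `sm β (ga σ R) = ga σ (sm β R) = 0` (`gk_sm`, `(hR β).2 dvd_rfl`, `map_zero`). There is a `K`-algebra map `f : Kb →ₐ[K] ℂ` (`IsAlgClosed.lift`; the instance `Algebra K ℂ` is `algKC`).
  `ord_cases f hβ hR : sm β Q = 0 → ∃ c, Q = sm c R`. Coprime: `Ord β (ga σ R)` (`Ord.ga`, or directly with `gk_sm`, `gk_inj`) and `Ord.coprime hR hβ`.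
* `semi_R`: `Q = rp τ R`. For all `a`: `sm a Q = sm (cj (cj a)) Q = rp τ (sm (cj a) R)` (`semi_sm hτ (cj a) R`, `cj_cj`), so `sm a Q = 0 ↔ sm (cj a) R = 0` (`rp_inj`, `map_zero`) `↔ β ∣ cj a ↔ β ∣ a`: `Ord β Q`. Then as above: `ord_cases`, `Ord.coprime`.
* `Rm.cj_dvd`: `s ^ k ∣ cj a ↔ cj (s ^ k) ∣ cj a` since `cj (s ^ k) = (-s) ^ k` is associated to `s ^ k` (`h.cjs`, `neg_pow`, or `neg_one_pow_eq_or`), then `cj_dvd_iff`.
* `gal_Y`: `c` is prime to `s ^ k` (`Ord.coprime`, as `sm c R = ga σ R` has `Ord`). Apply `map_Y hs h hR (σ : Kb →+* Kb) (RingHom.id _) ...`: `rp (σ : Kb →+* Kb) (sm a R) = sm (a * c) R`: `rp σ X = ga σ X` for all `X` (for `X = 0` both are `0`; for `X ≠ 0` both are not zero with the same coordinates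
  `xc_rph`, `yc_rph`, `xc_gk`, `yc_gk`: `pt_ext`), `ga σ (sm a R) = sm a (ga σ R) = sm a (sm c R) = sm (a * c) R` (`gk_sm`, `sm_mul`).
* `semi_Y`: `semi_R` with `β = s ^ k` and `hr.cj_dvd k`: `rp τ R = sm c R`. Apply `map_Y hr.ps h hR (τ : Kb →+* Kb) cj (hr.cj_dvd k) h.cj hc ...`: `rp τ (sm a R) = sm (cj a) (rp τ R) = sm (cj a) (sm c R) = sm (cj a * c) R` (`semi_sm`, `sm_mul`). So `τ Y = ε c * Y`; square, `(ε c) ^ 2 = 1`
  (`h.sq1 c (h.ne_dvd hr.ps hc)`).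
-/

set_option autoImplicit false

namespace Pool.Agent.Lib.MP_1a91b9_nuX.HW

open NumberField IsDedekindDomain WeierstrassCurve Pool.Agent.Lib.MP_1a91b9_nuT
open Pool.Agent.Lib.MP_1a91b9_nuX.DB Pool.Agent.Lib.MP_1a91b9_nuX.GL

variable [CD] [DecidableEq Kb]

/-- an automorphism over `K` multiplies `R` by an element prime to `β` -/
theorem gal_R {β : 𝓞 K} (hβ : β ≠ 0) {R : Pt Kb} (hR : Ord β R) (σ : Kb ≃ₐ[K] Kb) :
    ∃ c : 𝓞 K, IsCoprime c β ∧ ga σ R = sm Kb c R := by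
  have f : Kb →ₐ[K] ℂ := IsAlgClosed.lift
  have h1 : sm Kb β (ga σ R) = 0 := by
    rw [← gk_sm, (hR β).2 dvd_rfl, map_zero]
  obtain ⟨c, hc⟩ := ord_cases f hβ hR h1
  refine ⟨c, hR.coprime hβ ?_, hc⟩
  rw [← hc]
  exact hR.ga σ

/-- an automorphism over the conjugation multiplies `R` by an element prime to `β` -/
theorem semi_R {β : 𝓞 K} (hβ : β ≠ 0) (hj : ∀ a, β ∣ cj a ↔ β ∣ a) {R : Pt Kb} (hR : Ord β R)
    {τ : Kb ≃+* Kb} (hτ : ∀ a : 𝓞 K,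
      τ (algebraMap K Kb (a : K)) = algebraMap K Kb ((cj a : 𝓞 K) : K)) :
    ∃ c : 𝓞 K, IsCoprime c β ∧ rp (τ : Kb →+* Kb) R = sm Kb c R := by
  have f : Kb →ₐ[K] ℂ := IsAlgClosed.lift
  have hQ : Ord β (rp (τ : Kb →+* Kb) R) := by
    intro a
    have h1 := semi_sm hτ (cj a) R
    rw [cj_cj] at h1
    rw [← h1]
    constructor
    · intro h
      have h2 : sm Kb (cj a) R = 0 := by
        apply rp_inj (τ : Kb →+* Kb)
        rw [h, map_zero]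
      exact (hj a).1 ((hR (cj a)).1 h2)
    · intro h
      rw [(hR (cj a)).2 ((hj a).2 h), map_zero]
  obtain ⟨c, hc⟩ := ord_cases f hβ hR ((hQ β).2 dvd_rfl)
  refine ⟨c, hR.coprime hβ ?_, hc⟩
  rw [← hc]
  exact hQ

variable {s : 𝓞 K} {k p : ℕ} {ε : 𝓞 K → ℤ}

theorem Rm.cj_dvd (h : Rm s p) (k : ℕ) (a : 𝓞 K) : s ^ k ∣ cj a ↔ s ^ k ∣ a := by
  have h1 : cj (s ^ k) ∣ cj a ↔ s ^ k ∣ a := cj_dvd_iff
  rw [map_pow, h.cjs, neg_pow] at h1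
  rw [← h1]
  rcases neg_one_pow_eq_or (𝓞 K) k with h2 | h2
  · rw [h2, one_mul]
  · rw [h2, neg_one_mul, neg_dvd]

theorem gal_Y (hs : Prime s) (h : Sg s k p ε) {R : Pt Kb} (hR : Ord (s ^ k) R)
    (σ : Kb ≃ₐ[K] Kb) {c : 𝓞 K} (hc : ga σ R = sm Kb c R) (i : ℕ) :
    σ (Yi ε (s ^ k) R i) = ((ε c : ℤ) : Kb) * Yi ε (s ^ k) R i := by
  have hβ : s ^ k ≠ 0 := pow_ne_zero _ hs.ne_zero
  have hcop : IsCoprime c (s ^ k) := hR.coprime hβ (by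
    rw [← hc]
    exact hR.ga σ)
  have hrp : ∀ X : Pt Kb, rp (σ.toRingEquiv : Kb →+* Kb) X = ga σ X := by
    intro X
    rcases eq_or_ne X 0 with rfl | hX
    · rw [map_zero, map_zero]
    · refine pt_ext (rp_ne _ hX) (fun h => hX ((gk_ne σ).1 h)) ?_ ?_
      · rw [xc_rph, xc_gk]
        rfl
      · rw [yc_rph, yc_gk]
        rfl
  have h1 := map_Y hs h hR (σ.toRingEquiv : Kb →+* Kb) (RingHom.id _) (fun a => Iff.rfl)
    (fun a => rfl) hcop (fun a => by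
      rw [hrp, gk_sm, hc, RingHom.id_apply, sm_mul]) i
  exact h1

theorem semi_Y (hr : Rm s p) (h : Sg s k p ε) {R : Pt Kb} (hR : Ord (s ^ k) R)
    {τ : Kb ≃+* Kb} (hτ : ∀ a : 𝓞 K,
      τ (algebraMap K Kb (a : K)) = algebraMap K Kb ((cj a : 𝓞 K) : K)) (i : ℕ) :
    τ (Yi ε (s ^ k) R i ^ 2) = Yi ε (s ^ k) R i ^ 2 := by
  have hβ : s ^ k ≠ 0 := pow_ne_zero _ hr.ps.ne_zero
  obtain ⟨c, hcop, hc⟩ := semi_R hβ (hr.cj_dvd k) hR hτ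
  have h1 := map_Y hr.ps h hR (τ : Kb →+* Kb) cj (hr.cj_dvd k) h.cj hcop (fun a => by
    rw [semi_sm hτ, hc, sm_mul]) i
  have h2 : τ (Yi ε (s ^ k) R i) = ((ε c : ℤ) : Kb) * Yi ε (s ^ k) R i := h1
  rw [map_pow, h2, mul_pow]
  have h3 : ((ε c : ℤ) : Kb) ^ 2 = 1 := by
    rcases h.sq1 c (h.ne_dvd hr.ps hcop) with h4 | h4
    · rw [h4]
      norm_num
    · rw [h4]
      norm_num
  rw [h3, one_mul]

end Pool.Agent.Lib.MP_1a91b9_nuX.HW
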