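import Pool.Agent.Lib.MP_1a91b9_nuX.HW.Defs

/-!
# Descent of an element of the algebraic closure to `ℚ`, extraction of the squarefree part

PROOFS.
* `rat_of_fix`: `Kb / K` is Galois (`AlgebraicClosure`, characteristic zero: `IsAlgClosure.isGalois` or `inferInstance`); `(InfiniteGalois.mem_bot_iff_fixed z).2` (see GL/AbsL.lean or GL/AbsF.lean where this is used) gives `z ∈ ⊥`: `z = algebraMap K Kb y` (`IntermediateField.mem_bot`). Write `y = a / n` with `a : 𝓞 K`, `n : ℤ`, `n ≠ 0`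
  (`IsIntegral.exists_multiple_integral_of_isLocalization`, or `exists_rat_coords` of nuT/BaseK: `y = r1 + r2 * om`; or `(exists_integral_multiples ...)`): `(n : K) * y = (a : K)`. `τ z = z` and `τ (n) = n` give `τ (algebraMap (a : K)) = algebraMap (a : K)`, so `cj a = a` (injectivity of `algebraMap K Kb` and of the coercion `𝓞 K → K`, `RingOfIntegers.ext`). Write
  `a = m + m' * ta` (`exists_coords`), `cj a = (m + m' * tr) - m' * ta` (`cj_coords'`), `coords_inj`: `m' = -m'`, so `m' = 0`, `a = m`.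
* `sq_part`: `m ≠ 0` since `Y ≠ 0`. `(n * Y) ^ 2 = n * m` (as integers `N = n * m ≠ 0`). Write `N = b ^ 2 * d0` with `d0` squarefree, `b ≠ 0` (`Nat.sq_mul_squarefree N.natAbs : ∃ a b, b ^ 2 * a = n ∧ Squarefree a`; `d0 = sign N * a`, `Int.sign_mul_natAbs`; squarefree: `Int.squarefree_natAbs`).
  If `¬ p ∣ d0`: `d = d0`, `t = n / b`. If `d0 = p * e`: `d = -e`, `t = n / (b * s)` (`(s : K) ≠ 0`): `((n * Y) / (b * s)) ^ 2 = N / (b ^ 2 * s ^ 2) = b ^ 2 * p * e / (b ^ 2 * (-p)) = -e` (`hr.sq` mapped to `K`: `((s : 𝓞 K) : K) ^ 2 = -(p : K)`). `-e` is squarefree (divisor of `d0`), `¬ p ∣ e` since `p * p ∣ d0` would contradict squarefree (`p` is a prime: `hr.pp`).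
-/

set_option autoImplicit false

namespace Pool.Agent.Lib.MP_1a91b9_nuX.HW

open NumberField IsDedekindDomain WeierstrassCurve Pool.Agent.Lib.MP_1a91b9_nuT
open Pool.Agent.Lib.MP_1a91b9_nuX.DB Pool.Agent.Lib.MP_1a91b9_nuX.GL

variable [CD]

private theorem descb_galois : IsGalois K Kb := by
  have : IsAlgClosure K Kb := ⟨inferInstance, inferInstance⟩
  have : Normal K Kb := IsAlgClosure.normal K Kb
  exact { }

/-- an element fixed by all automorphisms over `K` and by one over the conjugation is rational -/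
theorem rat_of_fix {z : Kb} (h : ∀ σ : Kb ≃ₐ[K] Kb, σ z = z) {τ : Kb ≃+* Kb} (hτ : ∀ a : 𝓞 K,
      τ (algebraMap K Kb (a : K)) = algebraMap K Kb ((cj a : 𝓞 K) : K)) (hz : τ z = z) :
    ∃ m n : ℤ, n ≠ 0 ∧ (n : Kb) * z = (m : Kb) := by
  have := descb_galois
  have h1 : z ∈ (⊥ : IntermediateField K Kb) := (InfiniteGalois.mem_bot_iff_fixed z).2 h
  obtain ⟨y, hy⟩ := IntermediateField.mem_bot.1 h1
  obtain ⟨a, b, hab⟩ := exists_rat_coords y
  obtain ⟨N, hN⟩ : ∃ N : ℤ, N = (a.den : ℤ) * (b.den : ℤ) := ⟨_, rfl⟩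
  have hN0 : N ≠ 0 := by
    rw [hN]
    exact mul_ne_zero (Int.natCast_ne_zero.2 a.den_nz) (Int.natCast_ne_zero.2 b.den_nz)
  obtain ⟨m, hm⟩ : ∃ m : ℤ, m = a.num * b.den := ⟨_, rfl⟩
  obtain ⟨m', hm'⟩ : ∃ m' : ℤ, m' = b.num * a.den := ⟨_, rfl⟩
  have ha : (a.den : K) * (a : K) = (a.num : K) := by
    rw [mul_comm]
    exact_mod_cast congrArg (fun q : ℚ => (q : K)) (Rat.mul_den_eq_num a)
  have hb : (b.den : K) * (b : K) = (b.num : K) := by
    rw [mul_comm]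
    exact_mod_cast congrArg (fun q : ℚ => (q : K)) (Rat.mul_den_eq_num b)
  have hw : (N : K) * y = (((m : 𝓞 K) + (m' : 𝓞 K) * ta : 𝓞 K) : K) := by
    have e : (((m : 𝓞 K) + (m' : 𝓞 K) * ta : 𝓞 K) : K) = (m : K) + (m' : K) * om := coe_lin m m'
    rw [e, hab, hN, hm, hm']
    push_cast
    linear_combination (b.den : K) * ha + (a.den : K) * om * hb
  have hNz : (N : Kb) * z = algebraMap K Kb (((m : 𝓞 K) + (m' : 𝓞 K) * ta : 𝓞 K) : K) := by
    rw [← hw, map_mul, map_intCast, ← hy]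
  have h2 : algebraMap K Kb ((cj ((m : 𝓞 K) + (m' : 𝓞 K) * ta) : 𝓞 K) : K) =
      algebraMap K Kb (((m : 𝓞 K) + (m' : 𝓞 K) * ta : 𝓞 K) : K) := by
    rw [← hτ, ← hNz, map_mul, map_intCast, hz]
  have h3 : cj ((m : 𝓞 K) + (m' : 𝓞 K) * ta) = (m : 𝓞 K) + (m' : 𝓞 K) * ta :=
    RingOfIntegers.ext ((algebraMap K Kb).injective h2)
  rw [cj_coords'] at h3
  obtain ⟨-, h4⟩ := coords_inj h3
  have h5 : m' = 0 := by omega
  refine ⟨m, N, hN0, ?_⟩
  rw [hNz, h5]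
  have e : ((((m : ℤ) : 𝓞 K) + (((0 : ℤ)) : 𝓞 K) * ta : 𝓞 K) : K) = (m : K) + ((0 : ℤ) : K) * om :=
    coe_lin m 0
  rw [e, Int.cast_zero, zero_mul, add_zero, map_intCast]

/-- the squarefree part, made prime to `p` with the square root `s` of `-p` -/
theorem sq_part {s : 𝓞 K} {p : ℕ} (hr : Rm s p) {Y : Kb} (hY : Y ≠ 0) {m n : ℤ} (hn : n ≠ 0)
    (h : (n : Kb) * Y ^ 2 = (m : Kb)) :
    ∃ (d : ℤ) (t : K), Squarefree d ∧ ¬ (p : ℤ) ∣ d ∧ (algebraMap K Kb t * Y) ^ 2 = (d : Kb) := by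
  have hn' : (n : Kb) ≠ 0 := Int.cast_ne_zero.2 hn
  have hm : m ≠ 0 := by
    rintro rfl
    rw [Int.cast_zero] at h
    exact mul_ne_zero hn' (pow_ne_zero 2 hY) h
  obtain ⟨N, hN⟩ : ∃ N : ℤ, N = n * m := ⟨_, rfl⟩
  have hN0 : N ≠ 0 := by
    rw [hN]
    exact mul_ne_zero hn hm
  have hYN : ((n : Kb) * Y) ^ 2 = (N : Kb) := by
    rw [hN, Int.cast_mul, ← h]
    ring
  obtain ⟨a, b, hab, hsf⟩ := Nat.sq_mul_squarefree N.natAbs
  obtain ⟨d, hd⟩ : ∃ d : ℤ, d = N.sign * (a : ℤ) := ⟨_, rfl⟩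
  have hNd : N = (b : ℤ) ^ 2 * d := by
    have h1 : N.sign * (N.natAbs : ℤ) = N := Int.sign_mul_natAbs N
    rw [← hab] at h1
    push_cast at h1
    rw [hd]
    linear_combination -h1
  have hd1 : d.natAbs = a := by
    rw [hd, Int.natAbs_mul, Int.natAbs_sign_of_ne_zero hN0, one_mul, Int.natAbs_natCast]
  have hdsf : Squarefree d := by
    rw [← Int.squarefree_natAbs, hd1]
    exact hsf
  have hb0 : (b : ℤ) ≠ 0 := by
    intro hb
    rw [hb] at hNd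
    exact hN0 (by rw [hNd]; ring)
  have hbK : ((b : ℤ) : Kb) ≠ 0 := Int.cast_ne_zero.2 hb0
  have hbK' : (b : Kb) ≠ 0 := by
    rw [Int.cast_natCast] at hbK
    exact hbK
  have hYN2 : ((n : Kb) * Y) ^ 2 = ((b : ℤ) : Kb) ^ 2 * (d : Kb) := by
    rw [hYN, hNd]
    push_cast
    ring
  by_cases hp : (p : ℤ) ∣ d
  · obtain ⟨e, he⟩ := hp
    obtain ⟨S, hS⟩ : ∃ S : Kb, S = algebraMap K Kb ((s : 𝓞 K) : K) := ⟨_, rfl⟩
    have hS2 : S ^ 2 = -(p : Kb) := by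
      have h1 := congrArg ((algebraMap K Kb).comp (algebraMap (𝓞 K) K)) hr.sq
      rw [map_pow, map_neg, map_natCast] at h1
      rw [hS]
      exact h1
    have hp0 : (p : Kb) ≠ 0 := Nat.cast_ne_zero.2 hr.pp.ne_zero
    have hS0 : S ≠ 0 := by
      rintro rfl
      rw [zero_pow two_ne_zero] at hS2
      exact hp0 (neg_eq_zero.1 hS2.symm)
    refine ⟨-e, (n : K) / (((b : ℤ) : K) * ((s : 𝓞 K) : K)), ?_, ?_, ?_⟩
    · refine Squarefree.squarefree_of_dvd ?_ hdsf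
      rw [neg_dvd, he]
      exact dvd_mul_left _ _
    · rintro ⟨c, hc⟩
      have h1 : (p : ℤ) * (p : ℤ) ∣ d := ⟨-c, by rw [he]; linear_combination -(p : ℤ) * hc⟩
      have h2 := hdsf _ h1
      exact (Nat.prime_iff_prime_int.1 hr.pp).not_isUnit h2
    · rw [map_div₀, map_mul, map_intCast, map_intCast, ← hS, div_mul_eq_mul_div, div_pow,
        hYN2, mul_pow, hS2, he]
      push_cast
      field_simp
  · refine ⟨d, (n : K) / ((b : ℤ) : K), hdsf, hp, ?_⟩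
    rw [map_div₀, map_intCast, map_intCast, div_mul_eq_mul_div, div_pow, hYN2]
    field_simp

end Pool.Agent.Lib.MP_1a91b9_nuX.HW
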