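import Pool.Agent.Lib.MP_1a91b9_nuX.HW.Defs
import Pool.Agent.Lib.MP_1a91b9_nuX.UF.Ell

/-!
# The character for the six fields of odd discriminant with the units `1`, `-1`

PROOF. `UF.exists_p h`: `p` prime, `(p : ℤ) = 4 nm - tr ^ 2` (call it `hp`), `tr = 1`, `p % 4 = 3`, `7 ≤ p`. `UF.exists_red hp ... : r : 𝓞 K →+* ZMod p` surjective, `r a = 0 ↔ rt ∣ a`, `r (cj a) = r a` (look at the exact statements in UF/Ell.lean, also `rt_sq_p`, `absNorm_rt_p`, `cj_rt`, `rt_dvd_p`, `rt_dvd_int`, `units_two`; `(CD.tr, CD.nm) ∈ UF.qList` follows from `oList`: `simp [UF.qList, UF.oList] at *`).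
`have : Fact p.Prime`. `ε a = quadraticChar (ZMod p) (r a)`.
`Rm rt p`: `pp`; `ps`: `rt ≠ 0` (`rt ^ 2 = -p`) and `𝓞 K / rt` embeds in the field `ZMod p` by `r`: `Prime`: not a unit (`r rt = 0`, a unit would give `r` of a unit `= 0`), `rt ∣ a * b → r a * r b = 0`; `sq`: `rt_sq_p`; `nm`: `absNorm_rt_p`; `cjs`: `cj_rt`; `un`: `units_two`; `di`: `tr ^ 2 - 4 nm = -p`, `l ∣ p` implies `l = p` (`Nat.prime_dvd_prime_iff_eq`).
`Sg rt 1 p ε`: `k0`; `n2`: `rt ∣ 2` (`rt_dvd_int`): `p ∣ 2`, impossible for `7 ≤ p`; `dv`: `cp p = p` (`p ≠ 2`), `rt_dvd_p`; `mul`: `map_mul`; `cong`: `r a = r b` (`rt ^ 1 = rt`, `r (a - b) = 0`); `sq1`: `quadraticChar_dichotomy` (`r a ≠ 0`); `zero`: `r a = 0`, `quadraticChar_zero` (or `MulChar.map_zero`); `one`: `map_one`; `neg`: `quadraticChar_neg_one` (ringChar of `ZMod p` is not `2`) and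
`ZMod.χ₄_nat_three_mod_four` (card of `ZMod p` is `p`, `p % 4 = 3`); `cj`: `r (cj a) = r a`.
-/

set_option autoImplicit false

namespace Pool.Agent.Lib.MP_1a91b9_nuX.HW

open NumberField IsDedekindDomain WeierstrassCurve Pool.Agent.Lib.MP_1a91b9_nuT
open Pool.Agent.Lib.MP_1a91b9_nuX.DB Pool.Agent.Lib.MP_1a91b9_nuX.GL

variable [CD]

theorem rm_o (h : ((CD.tr, CD.nm) : ℤ × ℤ) ∈ UF.oList) :
    ∃ (p : ℕ) (ε : 𝓞 K → ℤ), Rm UF.rt p ∧ Sg UF.rt 1 p ε := by
  classical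
  obtain ⟨p, hpp, hp, htr, hp4, hp7⟩ := UF.exists_p h
  obtain ⟨r, hrs, hr0, hrc⟩ := UF.exists_red hp hpp
  have hF : Fact p.Prime := ⟨hpp⟩
  have hq : ((CD.tr, CD.nm) : ℤ × ℤ) ∈ UF.qList := by
    simp only [UF.oList, UF.qList, List.mem_cons, List.not_mem_nil, or_false] at h ⊢
    tauto
  have hrt0 : (UF.rt : 𝓞 K) ≠ 0 := by
    intro h0
    have h1 := UF.rt_sq_p hp
    rw [h0, zero_pow two_ne_zero, eq_comm, neg_eq_zero] at h1
    exact hpp.ne_zero (Nat.cast_eq_zero.1 h1)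
  have hrrt : r UF.rt = 0 := (hr0 _).2 dvd_rfl
  have h2 : ¬ (UF.rt : 𝓞 K) ∣ 2 := by
    intro h0
    have h1 : (UF.rt : 𝓞 K) ∣ ((2 : ℤ) : 𝓞 K) := by
      rw [Int.cast_ofNat]
      exact h0
    have h3 := (UF.rt_dvd_int hp hpp 2).1 h1
    have h4 := Int.le_of_dvd (by norm_num) h3
    omega
  have hcard : Fintype.card (ZMod p) = p := ZMod.card p
  have hchar : ringChar (ZMod p) ≠ 2 := by
    rw [ZMod.ringChar_zmod_n]
    omega
  refine ⟨p, fun a => quadraticChar (ZMod p) (r a), ?_, ?_⟩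
  · refine ⟨hpp, ⟨hrt0, ?_, ?_⟩, UF.rt_sq_p hp, UF.absNorm_rt_p hp, UF.cj_rt, UF.units_two hq, ?_⟩
    · intro hu
      have h1 := hu.map r
      rw [hrrt] at h1
      exact not_isUnit_zero h1
    · intro a b hab
      have h1 := (hr0 _).2 hab
      rw [map_mul] at h1
      rcases mul_eq_zero.1 h1 with h1 | h1
      · exact Or.inl ((hr0 _).1 h1)
      · exact Or.inr ((hr0 _).1 h1)
    · intro l hl hlp hd
      have h1 : (l : ℤ) ∣ (p : ℤ) := by
        rw [hp]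
        have h3 : 4 * CD.nm - CD.tr ^ 2 = -(CD.tr ^ 2 - 4 * CD.nm) := by ring
        rw [h3]
        exact (dvd_neg).2 hd
      exact hlp ((Nat.prime_dvd_prime_iff_eq hl hpp).1 (Int.natCast_dvd_natCast.1 h1))
  · refine ⟨one_ne_zero, ?_, ?_, ?_, ?_, ?_, ?_, ?_, ?_, ?_⟩
    · rw [pow_one]
      exact h2
    · rw [pow_one, cp, if_neg (by omega)]
      exact UF.rt_dvd_p hp
    · intro a b
      simp only [map_mul]
    · intro a b hab
      rw [pow_one] at hab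
      have h1 := (hr0 _).2 hab
      rw [map_sub, sub_eq_zero] at h1
      simp only [h1]
    · intro a ha
      exact quadraticChar_dichotomy fun h0 => ha ((hr0 _).1 h0)
    · intro a ha
      simp only [(hr0 _).2 ha]
      exact quadraticChar_zero
    · simp only [map_one]
    · simp only [map_neg, map_one]
      rw [quadraticChar_neg_one hchar, hcard]
      exact ZMod.χ₄_nat_three_mod_four hp4
    · intro a
      simp only [hrc]

end Pool.Agent.Lib.MP_1a91b9_nuX.HW
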