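import Pool.Agent.Lib.MP_1a91b9_nuX.HW.Defs
import Pool.Agent.Lib.MP_1a91b9_nuX.UF.Ell

/-!
# The character for the field of discriminant `-8`

PROOF. `UF.ta_sq_two h1 h2 : ta ^ 2 = -2 ∧ absNorm (span {ta}) = 2`. `(CD.tr, CD.nm) ∈ UF.qList`: `simp [UF.qList, h1, h2]`. Coordinates: `co_m`, `co_n : 𝓞 K → ℤ`, `co_spec a : a = co_m a + co_n a * ta`, `co_eq a m n : a = m + n * ta → co_m a = m ∧ co_n a = n` (file DB/Om.lean, namespace nuX.DB). `ε a = e8 (co_m a : ZMod 8) (co_n a : ZMod 8)`.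
Finite computations, by `decide` over `ZMod 8` (if slow: `decide +kernel`, allowed; or `Fin 8`, or `interval_cases`; at most 4096 cases):
(1) `e8 (m * u - 2 * n * v) (m * v + n * u) = e8 m n * e8 u v`; (2) `e8 (m + 8 a) ... = e8 m n` is automatic in `ZMod 8`; `e8 m (n + 4) = e8 m n`; (3) `e8 (-m) (-n) = - e8 m n`; `e8 m (-n) = e8 m n`; (4) `e8 m n = 0 ∨ e8 m n = 1 ∨ e8 m n = -1` and `e8 m n = 0 ↔ m.val % 2 = 0`; `e8 1 0 = 1`, `e8 (-1) 0 = -1`.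
`ta ∣ a ↔ 2 ∣ co_m a`: `ta * (x + y ta) = -2 y + x ta`; conversely `m = 2 m'`: `m + n ta = ta * (n - m' ta)` (`ta ^ 2 = -2`). `ta ^ 5 ∣ a - b` iff `a - b = 4 ta (x + y ta) = -8 y + 4 x ta` (`ta ^ 5 = 4 ta`): so `co_m a ≡ co_m b` mod 8 and `co_n a ≡ co_n b` mod 4. `(co_m a : ZMod 8).val % 2 = 0 ↔ 2 ∣ co_m a`.
`Rm ta 2`: `pp` `Nat.prime_two`; `ps`: norm `2` is prime: not a unit, and `ta ∣ a b`: `co_m (a b) = m u - 2 n v` even iff `m u` even; or `Ideal.span_singleton_prime` and `Ideal.isPrime_of_irreducible_absNorm`; `sq`; `nm`; `cjs`: `cj_coords 0 1` with `tr = 0`; `un`: `UF.units_two`; `di`: `tr ^ 2 - 4 nm = -8`, an odd prime number does not divide `8`.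
`Sg ta 5 2 ε`: `k0`; `n2`: `ta ^ 5 = 4 ta ∣ 2`: coordinates `2 = -8 y` impossible; `dv`: `cp 2 = 8`, `ta ^ 5 * (-ta) = -ta ^ 6 = 8`; `mul`: (1) (the product of `m + n ta` and `u + v ta` is `(m u - 2 n v) + (m v + n u) ta`); `cong`: (2); `sq1`, `zero`: (4); `one`; `neg`: (3); `cj`: `cj a = m - n ta` (`cj_coords`, `tr = 0`), (3).
-/

set_option autoImplicit false

namespace Pool.Agent.Lib.MP_1a91b9_nuX.HW

open NumberField IsDedekindDomain WeierstrassCurve Pool.Agent.Lib.MP_1a91b9_nuT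
open Pool.Agent.Lib.MP_1a91b9_nuX.DB Pool.Agent.Lib.MP_1a91b9_nuX.GL

/-- the sign of `m + n √-2` -/
def e8 (m n : ZMod 8) : ℤ :=
  if m.val % 2 = 0 then 0
  else if n.val % 2 = 0 then
    (if m.val = 1 ∨ m.val = 3 then 1 else -1) * (-1) ^ (n.val / 2)
  else (if (m + 2 * n).val = 1 ∨ (m + 2 * n).val = 3 then 1 else -1) * (-1) ^ ((n - m).val / 2)

private theorem epst_mul : ∀ m n u v : ZMod 8,
    e8 (m * u - 2 * n * v) (m * v + n * u) = e8 m n * e8 u v := by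
  decide +kernel

private theorem epst_four : ∀ m n : ZMod 8, e8 m (n + 4) = e8 m n := by decide +kernel

private theorem epst_neg : ∀ m n : ZMod 8, e8 (-m) (-n) = - e8 m n := by decide +kernel

private theorem epst_conj : ∀ m n : ZMod 8, e8 m (-n) = e8 m n := by decide +kernel

private theorem epst_sq : ∀ m n : ZMod 8, m.val % 2 ≠ 0 → e8 m n = 1 ∨ e8 m n = -1 := by
  decide +kernel

private theorem epst_zero : ∀ m n : ZMod 8, m.val % 2 = 0 → e8 m n = 0 := by decide +kernel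

private theorem epst_one : e8 1 0 = 1 := by decide +kernel

private theorem epst_mone : e8 (-1) 0 = -1 := by decide +kernel

private theorem epst_cases : ∀ z : ZMod 8, 4 * z = 0 ∨ 4 * z = 4 := by decide +kernel

private theorem epst_val (m : ℤ) : (m : ZMod 8).val % 2 = 0 ↔ (2 : ℤ) ∣ m := by
  have h1 : (((m : ZMod 8).val : ℕ) : ℤ) = m % (8 : ℕ) := ZMod.val_intCast m
  push_cast at h1
  omega

variable [CD]

private theorem epst_quad (h1 : CD.tr = 0) (h2 : CD.nm = 2) : (ta : 𝓞 K) ^ 2 = -2 := by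
  rw [ta_quad, h1, h2]
  push_cast
  ring

private theorem epst_pow (h1 : CD.tr = 0) (h2 : CD.nm = 2) : (ta : 𝓞 K) ^ 5 = 4 * ta := by
  have h := epst_quad h1 h2
  calc (ta : 𝓞 K) ^ 5 = (ta ^ 2) * (ta ^ 2) * ta := by ring
    _ = 4 * ta := by rw [h]; ring

private theorem epst_comul (h1 : CD.tr = 0) (h2 : CD.nm = 2) (a b : 𝓞 K) :
    co_m (a * b) = co_m a * co_m b - 2 * co_n a * co_n b ∧
      co_n (a * b) = co_m a * co_n b + co_n a * co_m b := by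
  have h := epst_quad h1 h2
  refine co_eq _ _ _ ?_
  have ha := co_spec a
  have hb := co_spec b
  obtain ⟨m, hm⟩ : ∃ m, m = co_m a := ⟨_, rfl⟩
  obtain ⟨n, hn⟩ : ∃ n, n = co_n a := ⟨_, rfl⟩
  obtain ⟨u, hu⟩ : ∃ u, u = co_m b := ⟨_, rfl⟩
  obtain ⟨v, hv⟩ : ∃ v, v = co_n b := ⟨_, rfl⟩
  rw [← hm, ← hn] at ha
  rw [← hu, ← hv] at hb
  rw [← hm, ← hn, ← hu, ← hv, ha, hb]
  push_cast
  linear_combination (n : 𝓞 K) * (v : 𝓞 K) * h

private theorem epst_dvd (h1 : CD.tr = 0) (h2 : CD.nm = 2) (a : 𝓞 K) :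
    (ta : 𝓞 K) ∣ a ↔ (2 : ℤ) ∣ co_m a := by
  have h := epst_quad h1 h2
  constructor
  · rintro ⟨c, hc⟩
    have hcs := co_spec c
    obtain ⟨x, hx⟩ : ∃ x, x = co_m c := ⟨_, rfl⟩
    obtain ⟨y, hy⟩ : ∃ y, y = co_n c := ⟨_, rfl⟩
    rw [← hx, ← hy] at hcs
    have h3 := (co_eq a (-2 * y) x (by
      rw [hc, hcs]
      push_cast
      linear_combination (y : 𝓞 K) * h)).1
    rw [h3]
    exact ⟨-y, by ring⟩
  · rintro ⟨m', hm'⟩
    have ha := co_spec a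
    rw [hm'] at ha
    refine ⟨(co_n a : 𝓞 K) - (m' : 𝓞 K) * ta, ?_⟩
    obtain ⟨n, hn⟩ : ∃ n, n = co_n a := ⟨_, rfl⟩
    rw [← hn] at ha ⊢
    rw [ha]
    push_cast
    linear_combination (m' : 𝓞 K) * h

theorem rm_t (h1 : CD.tr = 0) (h2 : CD.nm = 2) :
    ∃ ε : 𝓞 K → ℤ, Rm (ta : 𝓞 K) 2 ∧ Sg (ta : 𝓞 K) 5 2 ε := by
  have h := epst_quad h1 h2
  have h5 := epst_pow h1 h2
  have hN : Ideal.absNorm (Ideal.span {(ta : 𝓞 K)}) = 2 := (UF.ta_sq_two h1 h2).2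
  have hcj : cj (ta : 𝓞 K) = -ta := by
    have h3 := cj_coords (0 : ℤ) (1 : ℤ)
    rw [h1] at h3
    simpa using h3
  have h0 : (ta : 𝓞 K) ≠ 0 := by
    intro h0
    rw [h0] at h
    have h3 : (2 : 𝓞 K) = 0 := by linear_combination h
    exact two_ne_zero h3
  refine ⟨fun a => e8 (co_m a : ZMod 8) (co_n a : ZMod 8), ⟨Nat.prime_two, ?_, ?_, hN, hcj,
    ?_, ?_⟩, ⟨by norm_num, ?_, ?_, ?_, ?_, ?_, ?_, ?_, ?_, ?_⟩⟩
  · refine (Ideal.span_singleton_prime h0).1 (Ideal.isPrime_of_irreducible_absNorm ?_)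
    rw [hN]
    exact Nat.prime_two
  · rw [h]
    push_cast
    rfl
  · refine UF.units_two ?_
    simp [UF.qList, h1, h2]
  · intro l hl hl2 hd
    rw [h1, h2] at hd
    have h3 : (l : ℤ) ∣ ((8 : ℕ) : ℤ) := by
      have h4 : ((8 : ℕ) : ℤ) = -(0 ^ 2 - 4 * 2) := by norm_num
      rw [h4]
      exact (dvd_neg).2 hd
    have h4 : l ∣ 2 ^ 3 := by exact_mod_cast h3
    exact hl2 ((Nat.prime_dvd_prime_iff_eq hl Nat.prime_two).1 (hl.dvd_of_dvd_pow h4))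
  · rintro ⟨c, hc⟩
    have hcs := co_spec c
    obtain ⟨x, hx⟩ : ∃ x, x = co_m c := ⟨_, rfl⟩
    obtain ⟨y, hy⟩ : ∃ y, y = co_n c := ⟨_, rfl⟩
    rw [← hx, ← hy] at hcs
    have h3 := (co_unique 2 0 (-8 * y) (4 * x) (by
      rw [h5, hcs] at hc
      push_cast
      linear_combination hc + 4 * (y : 𝓞 K) * h)).1
    omega
  · have h3 : ((cp 2 : ℕ) : 𝓞 K) = 8 := by
      simp [cp]
    rw [h3]
    refine ⟨-ta, ?_⟩
    rw [h5]
    linear_combination 4 * h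
  · intro a b
    obtain ⟨h3, h4⟩ := epst_comul h1 h2 a b
    rw [h3, h4, ← epst_mul]
    push_cast
    rfl
  · intro a b hab
    obtain ⟨c, hc⟩ := hab
    have hcs := co_spec c
    have hb := co_spec b
    obtain ⟨x, hx⟩ : ∃ x, x = co_m c := ⟨_, rfl⟩
    obtain ⟨y, hy⟩ : ∃ y, y = co_n c := ⟨_, rfl⟩
    obtain ⟨u, hu⟩ : ∃ u, u = co_m b := ⟨_, rfl⟩
    obtain ⟨v, hv⟩ : ∃ v, v = co_n b := ⟨_, rfl⟩
    rw [← hx, ← hy] at hcs
    rw [← hu, ← hv] at hb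
    obtain ⟨h3, h4⟩ := co_eq a (u - 8 * y) (v + 4 * x) (by
      rw [h5, hcs] at hc
      push_cast
      linear_combination hc + hb + 4 * (y : 𝓞 K) * h)
    rw [h3, h4, ← hu, ← hv]
    have h6 : ((u - 8 * y : ℤ) : ZMod 8) = (u : ZMod 8) := by
      push_cast
      have h7 : (8 : ZMod 8) = 0 := by decide
      rw [h7, zero_mul, sub_zero]
    have h7 : ((v + 4 * x : ℤ) : ZMod 8) = (v : ZMod 8) + 4 * (x : ZMod 8) := by
      push_cast
      rfl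
    rw [h6, h7]
    rcases epst_cases (x : ZMod 8) with h8 | h8
    · rw [h8, add_zero]
    · rw [h8, epst_four]
  · intro a ha
    refine epst_sq _ _ fun h3 => ha ?_
    exact (epst_dvd h1 h2 a).2 ((epst_val _).1 h3)
  · intro a ha
    exact epst_zero _ _ ((epst_val _).2 ((epst_dvd h1 h2 a).1 ha))
  · obtain ⟨h3, h4⟩ := co_eq (1 : 𝓞 K) 1 0 (by push_cast; ring)
    rw [h3, h4]
    push_cast
    exact epst_one
  · obtain ⟨h3, h4⟩ := co_eq (-1 : 𝓞 K) (-1) 0 (by push_cast; ring)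
    rw [h3, h4]
    push_cast
    exact epst_mone
  · intro a
    obtain ⟨h3, h4⟩ := co_eq (cj a) (co_m a) (-co_n a) (by
      have h6 := cj_coords' (co_m a) (co_n a)
      rw [← co_spec a, h1] at h6
      rw [h6]
      push_cast
      ring)
    rw [h3, h4]
    push_cast
    exact epst_conj _ _

end Pool.Agent.Lib.MP_1a91b9_nuX.HW
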