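import Pool.Agent.Lib.MP_1a91b9_nuX.HW.DescA
import Pool.Agent.Lib.MP_1a91b9_nuX.HW.DescB

/-!
# Existence of the quadratic field cut out by the character
-/

set_option autoImplicit false

namespace Pool.Agent.Lib.MP_1a91b9_nuX.HW

open NumberField IsDedekindDomain WeierstrassCurve Pool.Agent.Lib.MP_1a91b9_nuT
open Pool.Agent.Lib.MP_1a91b9_nuX.DB Pool.Agent.Lib.MP_1a91b9_nuX.GL

variable [CD] [DecidableEq Kb] {s : 𝓞 K} {k p : ℕ} {ε : 𝓞 K → ℤ}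

theorem exists_dd (hr : Rm s p) (h : Sg s k p ε) :
    ∃ (R : Pt Kb) (d : ℤ) (D : Kb), Dd s k p ε R d D := by
  have hs0 : s ^ k ≠ 0 := pow_ne_zero _ hr.ps.ne_zero
  obtain ⟨R, hR⟩ := ext_point Kb hs0
  obtain ⟨i, hi⟩ := exists_Y hr.ps h hR
  obtain ⟨τ, hτ⟩ := exists_semi
  have hg : ∀ (σ : Kb ≃ₐ[K] Kb) (c : 𝓞 K), ga σ R = sm Kb c R →
      σ (Yi ε (s ^ k) R i) = ((ε c : ℤ) : Kb) * Yi ε (s ^ k) R i := fun σ c hc =>
    gal_Y hr.ps h hR σ hc i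
  have hfix : ∀ σ : Kb ≃ₐ[K] Kb, σ (Yi ε (s ^ k) R i ^ 2) = Yi ε (s ^ k) R i ^ 2 := by
    intro σ
    obtain ⟨c, hc, hcR⟩ := gal_R hs0 hR σ
    rw [map_pow, hg σ c hcR, mul_pow]
    have h1 : ((ε c : ℤ) : Kb) ^ 2 = 1 := by
      rcases h.sq1 c (h.ne_dvd hr.ps hc) with h2 | h2
      · rw [h2]
        norm_num
      · rw [h2]
        norm_num
    rw [h1, one_mul]
  obtain ⟨m, n, hn, hmn⟩ := rat_of_fix hfix hτ (semi_Y hr h hR hτ i)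
  obtain ⟨d, t, hd, hpd, ht⟩ := sq_part hr hi hn hmn
  refine ⟨R, d, algebraMap K Kb t * Yi ε (s ^ k) R i, hr, h, hR, hd, hpd, ht, ?_⟩
  intro σ c hc
  rw [map_mul, hg σ c hc, AlgEquiv.commutes]
  ring

end Pool.Agent.Lib.MP_1a91b9_nuX.HW
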