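import Pool.Agent.Lib.MP_1a91b9_nuX.HW.LocB

/-!
# The Frobenius automorphisms on the square root `D` of `d`

PROOFS.
* `exists_char`: `P.asIdeal ∩ ℤ` is generated by a prime number `l`: `absNorm` is a power of it. E.g. `Ideal.absNorm_mem`, or: `q = Ideal.absNorm P.asIdeal` is the cardinal of the finite field `𝓞 K ⧸ P.asIdeal`, `FiniteField.card'`/`CharP.exists`: `q = l ^ f`, `l` prime, `f ≠ 0`, and `(l : 𝓞 K ⧸ P) = 0` (see `TM.exists_char` or `exists_isRes` in the library for similar proofs).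
* `fr_odd`: let `q = l ^ f` be the norm; `l ≠ 2` (else `2 ∈ P`), `l` does not divide `d` (else `d ∈ P`). `kr d q = kr d l ^ f = jacobiSym d l ^ f` (`kr_pow`, `kr_prime`) `= legendreSym l d ^ f`. In `ZMod l`: `(legendreSym l d : ZMod l) = d ^ (l / 2)` (`legendreSym.eq_pow`), so `d ^ ((q - 1) / 2) ≡ (legendreSym l d) ^ f` modulo `l`:
  `(q - 1) / 2 = (l - 1) / 2 * (1 + l + ... + l ^ (f - 1))` and the second factor is `≡ f` modulo `2` (`l` odd), the symbol is `1` or `-1`. By induction on `f`: `(l ^ (f + 1) - 1) / 2 = (l ^ f - 1) / 2 * l + (l - 1) / 2` and `x ^ l = x` in `ZMod l` (`ZMod.pow_card`): `d ^ ((l ^ (f+1) - 1) / 2) = (d ^ ((l ^ f - 1) / 2)) ^ l * d ^ ((l - 1) / 2)`.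
  So the integer `d ^ ((q - 1) / 2) - kr d q` is divisible by `l` (`ZMod.intCast_zmod_eq_zero_iff_dvd` / `ZMod.intCast_eq_intCast_iff_dvd_sub`), its value at `V` is `< 1` (`val_int_lt`). `q` is odd: `D ^ q = D * (D ^ 2) ^ ((q - 1) / 2) = D * d ^ ((q - 1) / 2)`. `V.valuation D = 1`. `hσ D : V.valuation (σ D - D ^ q) < 1`. So `V.valuation (σ D - kr d q * D) < 1`.
  `σ D = D` or `-D` (`sq_or`), `kr d q = 1` or `-1`; if `σ D = - kr d q * D` then `σ D - kr d q * D = ∓ 2 D` has value one (`val_int_eq hV 2`), contradiction.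
-/

set_option autoImplicit false

namespace Pool.Agent.Lib.MP_1a91b9_nuX.HW

open NumberField IsDedekindDomain WeierstrassCurve Pool.Agent.Lib.MP_1a91b9_nuT
open Pool.Agent.Lib.MP_1a91b9_nuX.DB Pool.Agent.Lib.MP_1a91b9_nuX.GL

variable [CD] {P : HeightOneSpectrum (𝓞 K)} {V : ValuationSubring Kb} {D : Kb} {d : ℤ}

omit [CD] in
private theorem fra_pow {l : ℕ} [Fact l.Prime] (hl : l ≠ 2) (d : ℤ) (f : ℕ) :
    (∃ a, l ^ f = 2 * a + 1) ∧
      (d : ZMod l) ^ ((l ^ f - 1) / 2) = ((legendreSym l d : ℤ) : ZMod l) ^ f := by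
  have hodd : Odd l := (Fact.out : l.Prime).odd_of_ne_two hl
  obtain ⟨b, hb⟩ := hodd
  induction f with
  | zero => exact ⟨⟨0, by simp⟩, by simp⟩
  | succ f ih =>
    obtain ⟨⟨a, ha⟩, ih⟩ := ih
    have h1 : l ^ (f + 1) = 2 * (a * l + b) + 1 := by
      rw [pow_succ, ha]
      nth_rewrite 2 [hb]
      rw [hb]
      ring
    refine ⟨⟨a * l + b, h1⟩, ?_⟩
    have h2 : (l ^ (f + 1) - 1) / 2 = a * l + b := by omega
    have h3 : (l ^ f - 1) / 2 = a := by omega
    rw [h3] at ih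
    have h4 : l / 2 = b := by omega
    have h5 := legendreSym.eq_pow l d
    rw [h4] at h5
    rw [h2, pow_add, pow_mul, ZMod.pow_card, ih, ← h5, pow_succ]

omit [CD] in
private theorem fra_sq {Γ : Type*} [LinearOrderedCommGroupWithZero Γ] {x : Γ} (h : x ^ 2 = 1) :
    x = 1 := by
  rcases lt_trichotomy x 1 with h1 | h1 | h1
  · exact absurd h (pow_lt_one₀ zero_le h1 two_ne_zero).ne
  · exact h1
  · exact absurd h (one_lt_pow₀ h1 two_ne_zero).ne'

/-- the norm of a place is a power of the prime number in it -/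
theorem exists_char (P : HeightOneSpectrum (𝓞 K)) : ∃ (l f : ℕ), l.Prime ∧ f ≠ 0 ∧
    (l : 𝓞 K) ∈ P.asIdeal ∧ Ideal.absNorm P.asIdeal = l ^ f := by
  haveI := P.isMaximal
  haveI : Finite (𝓞 K ⧸ P.asIdeal) := Ideal.finiteQuotientOfFreeOfNeBot _ P.ne_bot
  letI := Ideal.Quotient.field P.asIdeal
  letI := Fintype.ofFinite (𝓞 K ⧸ P.asIdeal)
  obtain ⟨l, hl⟩ := CharP.exists (𝓞 K ⧸ P.asIdeal)
  obtain ⟨f, hlp, hcard⟩ := FiniteField.card (𝓞 K ⧸ P.asIdeal) l
  refine ⟨l, f, hlp, f.ne_zero, ?_, ?_⟩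
  · rw [← Ideal.Quotient.eq_zero_iff_mem, map_natCast]
    exact CharP.cast_eq_zero _ l
  · rw [Ideal.absNorm_apply, Submodule.cardQuot_apply, Nat.card_eq_fintype_card, hcard]

theorem fr_odd (hV : Abv P V) (hD : D ^ 2 = (d : Kb)) (h2 : (2 : 𝓞 K) ∉ P.asIdeal)
    (hd : (d : 𝓞 K) ∉ P.asIdeal) {σ : Kb ≃ₐ[K] Kb} (hσ : IsFr V (Ideal.absNorm P.asIdeal) σ) :
    σ D = ((kr d (Ideal.absNorm P.asIdeal) : ℤ) : Kb) * D := by
  obtain ⟨l, f, hlp, hf, hlP, hq⟩ := exists_char P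
  haveI : Fact l.Prime := ⟨hlp⟩
  have hl2 : l ≠ 2 := by
    intro h
    apply h2
    rw [h] at hlP
    exact_mod_cast hlP
  have hld : ¬ (l : ℤ) ∣ d := by
    rintro ⟨c, hc⟩
    apply hd
    have e1 : ((d : ℤ) : 𝓞 K) = (l : 𝓞 K) * ((c : ℤ) : 𝓞 K) := by
      rw [hc]
      push_cast
      rfl
    rw [e1]
    exact Ideal.mul_mem_right _ _ hlP
  have hlpz : Prime (l : ℤ) := Nat.prime_iff_prime_int.1 hlp
  have hl2d : ¬ (l : ℤ) ∣ 2 * d := by
    intro h
    rcases hlpz.dvd_or_dvd h with h | h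
    · have h' : l ∣ 2 := by exact_mod_cast h
      exact hl2 ((Nat.prime_dvd_prime_iff_eq hlp Nat.prime_two).1 h')
    · exact hld h
  have hkr : kr d (Ideal.absNorm P.asIdeal) = legendreSym l d ^ f := by
    rw [hq, kr_pow d hlp.ne_zero, kr_prime hlp hl2d, jacobiSym.legendreSym.to_jacobiSym]
  have hsym : legendreSym l d = 1 ∨ legendreSym l d = -1 := by
    apply legendreSym.eq_one_or_neg_one
    intro h0
    exact hld ((ZMod.intCast_zmod_eq_zero_iff_dvd d l).1 h0)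
  have hkr1 : kr d (Ideal.absNorm P.asIdeal) = 1 ∨ kr d (Ideal.absNorm P.asIdeal) = -1 := by
    rw [hkr]
    rcases hsym with h | h
    · rw [h, one_pow]
      exact Or.inl rfl
    · rw [h]
      exact neg_one_pow_eq_or ℤ f
  obtain ⟨⟨a, ha⟩, hpow⟩ := fra_pow hl2 d f
  have ha2 : (l ^ f - 1) / 2 = a := by omega
  rw [ha2] at hpow
  have hN : ((d ^ a - kr d (Ideal.absNorm P.asIdeal) : ℤ) : 𝓞 K) ∈ P.asIdeal := by
    have e1 : (l : ℤ) ∣ d ^ a - kr d (Ideal.absNorm P.asIdeal) := by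
      rw [← ZMod.intCast_zmod_eq_zero_iff_dvd]
      rw [hkr]
      push_cast
      rw [hpow, sub_self]
    obtain ⟨c, hc⟩ := e1
    rw [hc]
    push_cast
    exact Ideal.mul_mem_right _ _ hlP
  have hNv := (val_int_lt hV _).2 hN
  have hvD : V.valuation D = 1 := by
    apply fra_sq
    rw [← map_pow, hD]
    exact (val_int_eq hV d).2 hd
  have hDq : D ^ Ideal.absNorm P.asIdeal = D * ((d ^ a : ℤ) : Kb) := by
    rw [hq, ha, pow_succ, pow_mul, hD]
    push_cast
    ring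
  have e2 := hσ D hvD.le
  have e3 : V.valuation (σ D - ((kr d (Ideal.absNorm P.asIdeal) : ℤ) : Kb) * D) < 1 := by
    have e4 : σ D - ((kr d (Ideal.absNorm P.asIdeal) : ℤ) : Kb) * D =
        (σ D - D ^ Ideal.absNorm P.asIdeal) +
          D * ((d ^ a - kr d (Ideal.absNorm P.asIdeal) : ℤ) : Kb) := by
      rw [hDq]
      push_cast
      ring
    rw [e4]
    refine V.valuation.map_add_lt e2 ?_
    rw [map_mul, hvD, one_mul]
    exact hNv
  have hv2 : V.valuation ((2 : ℤ) : Kb) = 1 := (val_int_eq hV 2).2 (by exact_mod_cast h2)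
  have hv2D : V.valuation (((2 : ℤ) : Kb) * D) = 1 := by rw [map_mul, hv2, hvD, one_mul]
  rcases sq_or hD σ with hs | hs
  · rcases hkr1 with hk | hk
    · rw [hs, hk]
      push_cast
      ring
    · exfalso
      rw [hs, hk] at e3
      have e5 : D - (((-1 : ℤ)) : Kb) * D = ((2 : ℤ) : Kb) * D := by
        push_cast
        ring
      rw [e5, hv2D] at e3
      exact lt_irrefl _ e3
  · rcases hkr1 with hk | hk
    · exfalso
      rw [hs, hk] at e3
      have e5 : -D - (((1 : ℤ)) : Kb) * D = -(((2 : ℤ) : Kb) * D) := by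
        push_cast
        ring
      rw [e5, Valuation.map_neg, hv2D] at e3
      exact lt_irrefl _ e3
    · rw [hs, hk]
      push_cast
      ring

end Pool.Agent.Lib.MP_1a91b9_nuX.HW
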