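import Pool.Agent.Lib.MP_1a91b9_nuX.HW.LocB

/-!
# The Frobenius automorphisms above `2` on the square root `D` of `d`

PROOFS.
* `norm_two`: `Ideal.absNorm P.asIdeal ∣ Ideal.absNorm (Ideal.span {(2 : 𝓞 K)}) = 4` (`Ideal.absNorm_dvd_absNorm_of_le`; `absNorm_form 2 0` of nuT/Nrm gives the norm, or `Ideal.absNorm_span_singleton`), so it is `1`, `2` or `4`; it is not `1` (`Ideal.absNorm_eq_one_iff`, `P` is not `⊤`).
* `fr_even`: `V.valuation 2 < 1` (`val_int_lt hV 2`), `d` is odd, `V.valuation D = 1`. `α = (1 + D) / 2`, `α ^ 2 = α + e`, `e = (d - 1) / 4` an integer; `V.valuation α ≤ 1` (`α ^ 2 - α = e`; see file LocB for the argument; do not cite it, it is inside the proof of `triv_b`: prove it again as a private lemma). `q = 2` or `4` (`norm_two`).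
  `σ D = D` or `-D` (`sq_or`), i.e. `σ α = α` or `σ α = 1 - α = α - D`. (i) `q = 2`: `hσ α: V.valuation (σ α - α ^ 2) < 1`, `σ α - α ^ 2 = σ α - α - e`. If `d % 8 = 1`: `e` is even, `V.valuation e < 1`, so `V.valuation (σ α - α) < 1`, and `σ α - α = -D` of value one is impossible: `σ D = D`, `kr d 2 = 1` (`kr_two_one`). If `d % 8 = 5`: `e` is odd, `V.valuation e = 1`; if `σ α = α` then
  `V.valuation (-e) < 1`: impossible; `σ D = -D`, `kr d 2 = -1` (`kr_two_five`). (ii) `q = 4`: `α ^ 4 = (α + e) ^ 2 = α ^ 2 + 2 α e + e ^ 2 = α + e + e ^ 2 + 2 α e`, `e + e ^ 2` is even: `V.valuation (α ^ 4 - α) < 1`, so `V.valuation (σ α - α) < 1`, `σ D = D`; `kr d 4 = kr d 2 ^ 2 = 1` (`kr_mul d two_ne_zero two_ne_zero : kr d (2 * 2) = ...`, `kr_two_one`, `kr_two_five`).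
-/

set_option autoImplicit false

namespace Pool.Agent.Lib.MP_1a91b9_nuX.HW

open NumberField IsDedekindDomain WeierstrassCurve Pool.Agent.Lib.MP_1a91b9_nuT
open Pool.Agent.Lib.MP_1a91b9_nuX.DB Pool.Agent.Lib.MP_1a91b9_nuX.GL

variable [CD] {P : HeightOneSpectrum (𝓞 K)} {V : ValuationSubring Kb} {D : Kb} {d : ℤ}

theorem norm_two (h2 : (2 : 𝓞 K) ∈ P.asIdeal) :
    Ideal.absNorm P.asIdeal = 2 ∨ Ideal.absNorm P.asIdeal = 4 := by
  have h4 : Ideal.absNorm (Ideal.span {(2 : 𝓞 K)}) = 4 := by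
    have h := absNorm_form (2 : ℤ) 0
    have h1 : ((2 : ℤ) : 𝓞 K) + ((0 : ℤ) : 𝓞 K) * ta = 2 := by simp
    rw [h1] at h
    have h3 : ((Ideal.absNorm (Ideal.span {(2 : 𝓞 K)}) : ℕ) : ℤ) = 4 := by
      rw [h]
      ring
    exact_mod_cast h3
  have h5 : Ideal.absNorm P.asIdeal ∣ 4 := by
    rw [← h4]
    exact Ideal.absNorm_dvd_absNorm_of_le ((Ideal.span_singleton_le_iff_mem _).2 h2)
  have h6 : Ideal.absNorm P.asIdeal ≠ 1 := fun h => P.isPrime.ne_top (Ideal.absNorm_eq_one_iff.1 h)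
  have h7 : Ideal.absNorm P.asIdeal ≤ 4 := Nat.le_of_dvd (by norm_num) h5
  interval_cases h8 : Ideal.absNorm P.asIdeal
  · simp at h5
  · exact absurd rfl h6
  · exact Or.inl rfl
  · exact absurd h5 (by norm_num)
  · exact Or.inr rfl

private theorem frb_int (V : ValuationSubring Kb) (n : ℤ) : V.valuation (n : Kb) ≤ 1 :=
  (V.valuation_le_one_iff _).2 (intCast_mem V n)

private theorem frb_al {V : ValuationSubring Kb} {a : Kb} {e : ℤ} (h : a ^ 2 = a + (e : Kb)) :
    V.valuation a ≤ 1 := by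
  by_contra hlt
  rw [not_le] at hlt
  have h1 : V.valuation a ^ 2 ≤ V.valuation a := by
    rw [← map_pow, h]
    exact (V.valuation.map_add _ _).trans (max_le le_rfl ((frb_int V e).trans hlt.le))
  have h2 : V.valuation a < V.valuation a ^ 2 := by
    rw [pow_two]
    exact lt_mul_of_one_lt_right (zero_lt_one.trans hlt) hlt
  exact absurd h1 (not_le.2 h2)

theorem fr_even (hV : Abv P V) (hD : D ^ 2 = (d : Kb)) (h4 : d % 4 = 1)
    (h2 : (2 : 𝓞 K) ∈ P.asIdeal) {σ : Kb ≃ₐ[K] Kb} (hσ : IsFr V (Ideal.absNorm P.asIdeal) σ) :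
    σ D = ((kr d (Ideal.absNorm P.asIdeal) : ℤ) : Kb) * D := by
  have hc0 : CharZero Kb := inferInstance
  have v2 : V.valuation (2 : Kb) < 1 := by
    have h := (val_int_lt hV 2).2 (by rw [Int.cast_ofNat]; exact h2)
    rw [Int.cast_ofNat] at h
    exact h
  have vtwo : ∀ n : ℤ, V.valuation ((2 * n : ℤ) : Kb) < 1 := by
    intro n
    push_cast
    rw [map_mul]
    exact mul_lt_one_of_nonneg_of_lt_one_left zero_le v2 (frb_int V n)
  have vodd : ∀ n : ℤ, n % 2 = 1 → V.valuation (n : Kb) = 1 := by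
    intro n hn
    refine (val_int_eq hV n).2 fun h => ?_
    have h1 : (1 : 𝓞 K) ∈ P.asIdeal := by
      have h3 : (1 : 𝓞 K) = (n : 𝓞 K) - 2 * ((n / 2 : ℤ) : 𝓞 K) := by
        have h4 : n = 2 * (n / 2) + 1 := by omega
        have h5 : (n : 𝓞 K) = ((2 * (n / 2) + 1 : ℤ) : 𝓞 K) := by rw [← h4]
        push_cast at h5
        linear_combination -h5
      rw [h3]
      exact P.asIdeal.sub_mem h (P.asIdeal.mul_mem_right _ h2)
    exact P.isPrime.ne_top ((Ideal.eq_top_iff_one _).2 h1)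
  have vD : V.valuation D = 1 := by
    have h := vodd d (by omega)
    rw [← hD, map_pow] at h
    exact (pow_eq_one_iff.1 h).resolve_right two_ne_zero
  obtain ⟨e, he⟩ : ∃ e : ℤ, d = 4 * e + 1 := ⟨d / 4, by omega⟩
  have two0 : (2 : Kb) ≠ 0 := two_ne_zero
  have ha2 : ((1 + D) / 2) ^ 2 = (1 + D) / 2 + (e : Kb) := by
    have h := hD
    rw [he] at h
    push_cast at h
    field_simp
    linear_combination h
  have hva : V.valuation ((1 + D) / 2) ≤ 1 := frb_al ha2
  have hσa : σ ((1 + D) / 2) = (1 + σ D) / 2 := by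
    rw [map_div₀, map_add, map_one, map_ofNat]
  have key : ∀ x : Kb, V.valuation x < 1 → ¬ V.valuation (-D - x) < 1 := by
    intro x hx h
    have h1 : V.valuation D < 1 := by
      have h3 : D = -(-D - x) - x := by ring
      rw [h3]
      refine (V.valuation.map_sub _ _).trans_lt (max_lt ?_ hx)
      rw [Valuation.map_neg]
      exact h
    rw [vD] at h1
    exact lt_irrefl _ h1
  rcases norm_two h2 with hq | hq
  · rw [hq] at hσ ⊢
    have h1 := hσ _ hva
    rw [hσa, ha2] at h1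
    rcases (by omega : d % 8 = 1 ∨ d % 8 = 5) with h8 | h8
    · rw [kr_two_one h8, Int.cast_one, one_mul]
      rcases sq_or hD σ with h3 | h3
      · exact h3
      · exfalso
        rw [h3] at h1
        obtain ⟨e', he'⟩ : ∃ e' : ℤ, e = 2 * e' := ⟨e / 2, by omega⟩
        have h5 := vtwo e'
        rw [← he'] at h5
        refine key _ h5 ?_
        have h6 : (-D - (e : Kb)) = (1 + -D) / 2 - ((1 + D) / 2 + (e : Kb)) := by ring
        rw [h6]
        exact h1
    · rw [kr_two_five h8]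
      rcases sq_or hD σ with h3 | h3
      · exfalso
        rw [h3] at h1
        have h6 : (1 + D) / 2 - ((1 + D) / 2 + (e : Kb)) = -(e : Kb) := by ring
        rw [h6, Valuation.map_neg, vodd e (by omega)] at h1
        exact lt_irrefl _ h1
      · rw [h3]
        push_cast
        ring
  · rw [hq] at hσ ⊢
    have hk : kr d 4 = 1 := by
      have h5 := kr_mul d (m := 2) (n := 2) two_ne_zero two_ne_zero
      have h6 : (2 * 2 : ℕ) = 4 := rfl
      rw [h6] at h5
      rw [h5]
      rcases (by omega : d % 8 = 1 ∨ d % 8 = 5) with h8 | h8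
      · rw [kr_two_one h8]
        rfl
      · rw [kr_two_five h8]
        rfl
    rw [hk, Int.cast_one, one_mul]
    rcases sq_or hD σ with h3 | h3
    · exact h3
    · exfalso
      have h1 := hσ _ hva
      rw [hσa, h3] at h1
      obtain ⟨e', he'⟩ : ∃ e' : ℤ, e + e ^ 2 = 2 * e' := by
        have h7 : (e + e ^ 2) % 2 = 0 := by
          rcases Int.emod_two_eq_zero_or_one e with h8 | h8
          · simp [Int.add_emod, pow_two, Int.mul_emod, h8]
          · simp [Int.add_emod, pow_two, Int.mul_emod, h8]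
        exact ⟨(e + e ^ 2) / 2, by omega⟩
      have h4' : ((1 + D) / 2) ^ 4 - (1 + D) / 2 =
          ((2 * e' : ℤ) : Kb) + 2 * (((1 + D) / 2) * (e : Kb)) := by
        have h9 : ((e + e ^ 2 : ℤ) : Kb) = ((2 * e' : ℤ) : Kb) := by rw [he']
        push_cast at h9 ⊢
        have h10 : ((1 + D) / 2) ^ 4 = (((1 + D) / 2) ^ 2) ^ 2 := by ring
        rw [h10, ha2]
        linear_combination h9 + ha2
      have h5 : V.valuation (((1 + D) / 2) ^ 4 - (1 + D) / 2) < 1 := by
        rw [h4']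
        refine (V.valuation.map_add _ _).trans_lt (max_lt (vtwo e') ?_)
        rw [map_mul]
        refine mul_lt_one_of_nonneg_of_lt_one_left zero_le v2 ?_
        rw [map_mul]
        exact mul_le_one' hva (frb_int V e)
      refine key _ h5 ?_
      have h6 : (-D - (((1 + D) / 2) ^ 4 - (1 + D) / 2)) =
          (1 + -D) / 2 - ((1 + D) / 2) ^ 4 := by ring
      rw [h6]
      exact h1

end Pool.Agent.Lib.MP_1a91b9_nuX.HW
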