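import Pool.Agent.Lib.MP_1a91b9_nuX.HW.Defs

/-!
# Triviality of the inertia action on the square root `D` of `d`

PROOFS.
* `val_int_lt`, `val_int_eq`: `(n : Kb) = algebraMap K Kb ((n : 𝓞 K) : K)` (`map_intCast`), `abv_lt hV`, `abv_eq hV`, `P.valuation_lt_one_iff_mem`, `HeightOneSpectrum.valuation_eq_one_iff_notMem` (see HD.lean `HDat.good`).
* `sq_or`: `(σ D) ^ 2 = σ (D ^ 2) = d = D ^ 2`: `sq_eq_sq_iff_eq_or_eq_neg`.
* `triv_a`: `V.valuation D ^ 2 = V.valuation d = 1` so `V.valuation D = 1` (`pow_left_injective`, or `le_antisymm` with `pow_lt_one₀`...). If `σ D = -D`: `hσ D : V.valuation (σ D - D ^ 1) < 1`, the argument is `-2 * D`, of value `V.valuation 2 * 1 = 1` (`val_int_eq hV 2`): contradiction.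
* `triv_b`: `d` is odd so `(d : 𝓞 K) ∉ P` (`d = 4 * e + 1`, `2 ∈ P`, `1 ∉ P`) and `V.valuation D = 1`. `α = (1 + D) / 2` satisfies `α ^ 2 - α = (d - 1) / 4 = e` integer, so `V.valuation α ≤ 1` (if `1 < V.valuation α` then `V.valuation (α ^ 2 - α) = V.valuation α ^ 2 > 1`; or `α` is integral over `ℤ` and the valuation subring is integrally closed, see GL/AbsU.lean lines 41 to 47). If `σ D = -D` then
  `σ α - α ^ 1 = -D` (characteristic zero), of value one: contradiction to `hσ α`.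
-/

set_option autoImplicit false

namespace Pool.Agent.Lib.MP_1a91b9_nuX.HW

open NumberField IsDedekindDomain WeierstrassCurve Pool.Agent.Lib.MP_1a91b9_nuT
open Pool.Agent.Lib.MP_1a91b9_nuX.DB Pool.Agent.Lib.MP_1a91b9_nuX.GL

variable [CD] {P : HeightOneSpectrum (𝓞 K)}

private theorem locb_cast (n : ℤ) : (n : Kb) = algebraMap K Kb (((n : 𝓞 K) : 𝓞 K) : K) := by
  have h1 : (((n : 𝓞 K) : 𝓞 K) : K) = (n : K) := map_intCast (algebraMap (𝓞 K) K) n
  rw [h1, map_intCast]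

/-- the integers -/
theorem val_int_lt {V : ValuationSubring Kb} (hV : Abv P V) (n : ℤ) :
    V.valuation (n : Kb) < 1 ↔ (n : 𝓞 K) ∈ P.asIdeal := by
  rw [locb_cast, abv_lt hV, GM.val_lt_mem]

theorem val_int_eq {V : ValuationSubring Kb} (hV : Abv P V) (n : ℤ) :
    V.valuation (n : Kb) = 1 ↔ (n : 𝓞 K) ∉ P.asIdeal := by
  rw [locb_cast, abv_eq hV, HeightOneSpectrum.valuation_eq_one_iff_notMem]

theorem sq_or {D : Kb} {d : ℤ} (hD : D ^ 2 = (d : Kb)) (σ : Kb ≃ₐ[K] Kb) :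
    σ D = D ∨ σ D = -D := by
  have h : (σ D) ^ 2 = D ^ 2 := by
    rw [← map_pow, hD, map_intCast]
  exact sq_eq_sq_iff_eq_or_eq_neg.1 h

variable {V : ValuationSubring Kb} {D : Kb} {d : ℤ}

private theorem locb_one (hV : Abv P V) (hD : D ^ 2 = (d : Kb)) (hd : (d : 𝓞 K) ∉ P.asIdeal) :
    V.valuation D = 1 := by
  have h1 : V.valuation D ^ 2 = 1 := by
    rw [← map_pow, hD]
    exact (val_int_eq hV d).2 hd
  rcases lt_trichotomy (V.valuation D) 1 with h | h | h
  · exact absurd h1 (pow_lt_one₀ zero_le h two_ne_zero).ne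
  · exact h
  · exact absurd h1 (one_lt_pow₀ h two_ne_zero).ne'

theorem triv_a (hV : Abv P V) (hD : D ^ 2 = (d : Kb)) (h2 : (2 : 𝓞 K) ∉ P.asIdeal)
    (hd : (d : 𝓞 K) ∉ P.asIdeal) (σ : Kb ≃ₐ[K] Kb) (hσ : IsFr V 1 σ) : σ D = D := by
  have hv := locb_one hV hD hd
  rcases sq_or hD σ with h | h
  · exact h
  · exfalso
    have h1 := hσ D hv.le
    have h4 : σ D - D ^ 1 = -(((2 : ℤ) : Kb) * D) := by
      rw [h]
      push_cast
      ring
    have h3 : V.valuation ((2 : ℤ) : Kb) = 1 := by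
      rw [val_int_eq hV]
      push_cast
      exact h2
    rw [h4, Valuation.map_neg, map_mul, h3, hv, one_mul] at h1
    exact lt_irrefl _ h1

theorem triv_b (hV : Abv P V) (hD : D ^ 2 = (d : Kb)) (h4 : d % 4 = 1)
    (h2 : (2 : 𝓞 K) ∈ P.asIdeal) (σ : Kb ≃ₐ[K] Kb) (hσ : IsFr V 1 σ) : σ D = D := by
  obtain ⟨e, he⟩ : ∃ e : ℤ, d = 4 * e + 1 := ⟨d / 4, by omega⟩
  have hd : (d : 𝓞 K) ∉ P.asIdeal := by
    intro h
    apply P.isPrime.ne_top
    rw [Ideal.eq_top_iff_one]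
    have h3 : (1 : 𝓞 K) = (d : 𝓞 K) - 2 * (2 * (e : 𝓞 K)) := by
      rw [he]
      push_cast
      ring
    rw [h3]
    exact P.asIdeal.sub_mem h (P.asIdeal.mul_mem_right _ h2)
  have hv := locb_one hV hD hd
  have h20 : (2 : Kb) ≠ 0 := two_ne_zero
  have hα : ((1 + D) / 2) * ((1 + D) / 2) = (1 + D) / 2 + (e : Kb) := by
    have h3 : D ^ 2 = 4 * (e : Kb) + 1 := by
      rw [hD, he]
      push_cast
      ring
    field_simp
    linear_combination h3
  have hvα : V.valuation ((1 + D) / 2) ≤ 1 := by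
    by_contra hcon
    rw [not_le] at hcon
    have h3 := congrArg V.valuation hα
    rw [map_mul] at h3
    have h4 : V.valuation ((1 + D) / 2 + (e : Kb)) ≤ V.valuation ((1 + D) / 2) := by
      refine (V.valuation.map_add _ _).trans (max_le le_rfl ?_)
      exact (((V.valuation_le_one_iff _).2 (intCast_mem V e)).trans hcon.le)
    rw [← h3] at h4
    have h5 : V.valuation ((1 + D) / 2) * 1 <
        V.valuation ((1 + D) / 2) * V.valuation ((1 + D) / 2) :=
      mul_lt_mul_of_pos_left hcon (zero_lt_one.trans hcon)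
    rw [mul_one] at h5
    exact absurd h4 (not_le.2 h5)
  rcases sq_or hD σ with h | h
  · exact h
  · exfalso
    have h1 := hσ _ hvα
    have h4 : σ ((1 + D) / 2) - ((1 + D) / 2) ^ 1 = -D := by
      rw [map_div₀, map_add, map_one, map_ofNat, h]
      field_simp
      ring
    rw [h4, Valuation.map_neg, hv] at h1
    exact lt_irrefl _ h1

end Pool.Agent.Lib.MP_1a91b9_nuX.HW
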