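import Pool.Agent.Lib.MP_1a91b9_nuX.HW.Unr
import Pool.Agent.Lib.MP_1a91b9_nuX.HW.LocB

/-!
# Nontriviality of the inertia action on the square root `D` of `d`

PROOFS. Use `val_fixed` and `val_prime` (file Unr), `val_int_lt`, `val_int_eq` (file LocB). The value group: for `y : K`, `y ≠ 0`, `P.valuation K y = WithZero.exp n` for an integer `n`; for `x y : K`: `V.valuation (algebraMap K Kb x) = V.valuation (algebraMap K Kb y) → P.valuation K x = P.valuation K y` (quotient of value one and `abv_eq hV`).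
* `ntriv_c`: suppose all inertia automorphisms fix `D`. `P` contains a prime number `l` dividing `d` (`(d : 𝓞 K) ∈ P`; `d ≠ 0`; `d.natAbs` is a product of primes: strong induction, or `Ideal.IsPrime` and `Nat.prod_primeFactorsList`; or take the prime number `l` with `(l : 𝓞 K) ∈ P` and if `l` does not divide `d` then `1 = x l + y d ∈ P`). `l ≠ p` since `p ∉ P`. `d = l * e`,
  `(e : 𝓞 K) ∉ P` since `l` does not divide `e` (squarefree) and `1 = x l + y e`. `P.valuation K (d : K) = exp (-1)` (`val_prime`, `P.valuation K e = 1`). `val_fixed hV hD h 0 1`: `y : K` with `V.valuation y = V.valuation D`; then `V.valuation (y ^ 2) = V.valuation (D ^ 2) = V.valuation d`, so `P.valuation K (y ^ 2) = P.valuation K d = exp (-1)`, `P.valuation K y = exp n`: `2 n = -1`, impossible (`WithZero.exp_nsmul`/`WithZero.exp_inj`, `omega`).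
* `ntriv_d`: `p ≠ 2` since `(p : 𝓞 K) ∉ P`. `d` is odd (otherwise `d ∈ P`) so `d % 4 = 3`, `1 - d = 2 * e` with `e` odd, `(e : 𝓞 K) ∉ P`. `P.valuation K 2 = exp (-1)` (`val_prime` for `l = 2`, `hr.di 2`), so `P.valuation K ((1 - d : ℤ) : K) = exp (-1)`. Suppose all inertia automorphisms fix `D`: `y₁, y₂ : K` with `V.valuation y₁ = V.valuation (1 + D)`,
  `V.valuation y₂ = V.valuation (1 - D)` (`val_fixed` with `a = 1`, `b = 1, -1`). `(1 + D) (1 - D) = 1 - d`, so `P.valuation K (y₁ * y₂) = exp (-1)`. `V.valuation (1 ± D) ≤ 1` (`V.valuation D ^ 2 = V.valuation d = 1`). With `P.valuation K y_i = exp (n_i)`: `n_i ≤ 0`, `n₁ + n₂ = -1`, so one of them is `0`, i.e. one of `V.valuation (1 ± D)` is `1` and the other is `< 1`; but `(1 + D) + (1 - D) = 2` has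
  `V.valuation 2 < 1`: contradiction (`Valuation.map_add_eq_of_lt_right`, or: the one of value one is `2` minus the other, of value `< 1`).
-/

set_option autoImplicit false

namespace Pool.Agent.Lib.MP_1a91b9_nuX.HW

open NumberField IsDedekindDomain WeierstrassCurve Pool.Agent.Lib.MP_1a91b9_nuT
open Pool.Agent.Lib.MP_1a91b9_nuX.DB Pool.Agent.Lib.MP_1a91b9_nuX.GL

variable [CD] {P : HeightOneSpectrum (𝓞 K)} {V : ValuationSubring Kb} {D : Kb} {d : ℤ} {s : 𝓞 K}
  {p : ℕ}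

private theorem locc_val_eq (hV : Abv P V) {x y : K} (hy : y ≠ 0)
    (h : V.valuation (algebraMap K Kb x) = V.valuation (algebraMap K Kb y)) :
    P.valuation K x = P.valuation K y := by
  have hy' : V.valuation (algebraMap K Kb y) ≠ 0 := by
    rw [Valuation.ne_zero_iff]
    intro h0
    exact hy ((algebraMap K Kb).injective (h0.trans (map_zero _).symm))
  have h1 : V.valuation (algebraMap K Kb (x / y)) = 1 := by
    rw [map_div₀, map_div₀, h, div_self hy']
  have h2 := (abv_eq hV _).1 h1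
  rw [map_div₀] at h2
  exact (div_eq_one_iff_eq ((Valuation.ne_zero_iff _).2 hy)).1 h2

private theorem locc_exp {x : K} (hx : x ≠ 0) : ∃ n : ℤ, P.valuation K x = WithZero.exp n :=
  ⟨WithZero.log (P.valuation K x), (WithZero.exp_log ((Valuation.ne_zero_iff _).2 hx)).symm⟩

private theorem locc_char (P : HeightOneSpectrum (𝓞 K)) : ∃ l : ℕ, l.Prime ∧
    ∀ n : ℤ, (n : 𝓞 K) ∈ P.asIdeal ↔ (l : ℤ) ∣ n := by
  have hpr : (P.asIdeal.comap (Int.castRingHom (𝓞 K))).IsPrime := Ideal.IsPrime.comap _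
  obtain ⟨g, hg⟩ := (IsPrincipalIdealRing.principal (P.asIdeal.comap (Int.castRingHom (𝓞 K))))
  have hg' : P.asIdeal.comap (Int.castRingHom (𝓞 K)) = Ideal.span {g} := hg
  have hmem : ∀ n : ℤ, (n : 𝓞 K) ∈ P.asIdeal ↔ g ∣ n := by
    intro n
    rw [← Ideal.mem_span_singleton, ← hg', Ideal.mem_comap]
    rfl
  have hg0 : g ≠ 0 := by
    intro h0
    obtain ⟨a, ha, ha0⟩ := Submodule.exists_mem_ne_zero_of_ne_bot P.ne_bot
    have h1 : (Ideal.absNorm P.asIdeal : 𝓞 K) ∈ P.asIdeal := Ideal.absNorm_mem _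
    have h2 : (((Ideal.absNorm P.asIdeal : ℕ) : ℤ) : 𝓞 K) ∈ P.asIdeal := by
      rw [Int.cast_natCast]
      exact h1
    rw [hmem, h0, zero_dvd_iff, Nat.cast_eq_zero, Ideal.absNorm_eq_zero_iff] at h2
    exact P.ne_bot h2
  have hgp : Prime g := by
    rw [hg'] at hpr
    exact (Ideal.span_singleton_prime hg0).1 hpr
  refine ⟨g.natAbs, Int.prime_iff_natAbs_prime.1 hgp, fun n => ?_⟩
  rw [hmem, Int.natAbs_dvd]

private theorem locc_val_one {n : ℤ} (hn : (n : 𝓞 K) ∉ P.asIdeal) :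
    P.valuation K (n : K) = 1 := by
  have h1 := (HeightOneSpectrum.valuation_eq_one_iff_notMem (K := K) P (r := (n : 𝓞 K))).2 hn
  rwa [map_intCast] at h1

theorem ntriv_c (hr : Rm s p) (hV : Abv P V) (hD : D ^ 2 = (d : Kb)) (hsq : Squarefree d)
    (hp : (p : 𝓞 K) ∉ P.asIdeal) (hd : (d : 𝓞 K) ∈ P.asIdeal) :
    ¬ ∀ σ : Kb ≃ₐ[K] Kb, IsFr V 1 σ → σ D = D := by
  intro h
  obtain ⟨l, hl, hmem⟩ := locc_char P
  have hld := (hmem d).1 hd
  obtain ⟨e, he⟩ := hld
  have hlp : l ≠ p := by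
    intro h0
    apply hp
    have h1 := (hmem (l : ℤ)).2 dvd_rfl
    rwa [h0, Int.cast_natCast] at h1
  have hlP : (l : 𝓞 K) ∈ P.asIdeal := by
    have h1 := (hmem (l : ℤ)).2 dvd_rfl
    rwa [Int.cast_natCast] at h1
  have heP : (e : 𝓞 K) ∉ P.asIdeal := by
    intro h1
    obtain ⟨f, hf⟩ := (hmem e).1 h1
    have h2 : (l : ℤ) * l ∣ d := ⟨f, by rw [he, hf, mul_assoc]⟩
    exact (Nat.prime_iff_prime_int.1 hl).not_isUnit (hsq _ h2)
  have hd0 : d ≠ 0 := by
    intro h0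
    rw [h0] at hsq
    exact not_squarefree_zero hsq
  have hdK : ((d : ℤ) : K) ≠ 0 := Int.cast_ne_zero.2 hd0
  have hvd : P.valuation K ((d : ℤ) : K) = WithZero.exp (-1 : ℤ) := by
    rw [he, Int.cast_mul, map_mul, locc_val_one heP, mul_one, Int.cast_natCast]
    exact val_prime hl (hr.di l hl hlp) hlP
  obtain ⟨y, hy⟩ := val_fixed hV hD h 0 1
  rw [map_zero, map_one, zero_add, one_mul] at hy
  have h1 : V.valuation (algebraMap K Kb (y ^ 2)) = V.valuation (algebraMap K Kb (d : K)) := by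
    rw [map_pow, map_pow, hy, ← map_pow, hD, map_intCast (algebraMap K Kb)]
  have h2 := locc_val_eq hV hdK h1
  have hy0 : y ≠ 0 := by
    intro h0
    rw [h0, hvd, zero_pow two_ne_zero, map_zero] at h2
    exact WithZero.exp_ne_zero h2.symm
  obtain ⟨n, hn⟩ := locc_exp (P := P) hy0
  rw [map_pow, hn, hvd, ← WithZero.exp_nsmul, WithZero.exp_inj, nsmul_eq_mul] at h2
  push_cast at h2
  omega

theorem ntriv_d (hr : Rm s p) (hV : Abv P V) (hD : D ^ 2 = (d : Kb))
    (hp : (p : 𝓞 K) ∉ P.asIdeal) (h2 : (2 : 𝓞 K) ∈ P.asIdeal) (hd : (d : 𝓞 K) ∉ P.asIdeal)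
    (h4 : d % 4 ≠ 1) : ¬ ∀ σ : Kb ≃ₐ[K] Kb, IsFr V 1 σ → σ D = D := by
  intro h
  have hp2 : 2 ≠ p := by
    intro h0
    apply hp
    rw [← h0]
    exact_mod_cast h2
  have h1P : (1 : 𝓞 K) ∉ P.asIdeal := fun h1 => P.isPrime.ne_top ((Ideal.eq_top_iff_one _).2 h1)
  have heven : ∀ n : ℤ, n % 2 = 0 → (n : 𝓞 K) ∈ P.asIdeal := by
    intro n hn
    have e : n = 2 * (n / 2) := by omega
    rw [e, Int.cast_mul, Int.cast_ofNat]
    exact Ideal.mul_mem_right _ _ h2
  have hodd : ∀ n : ℤ, n % 2 = 1 → (n : 𝓞 K) ∉ P.asIdeal := by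
    intro n hn h1
    apply h1P
    have e : (1 : 𝓞 K) = (n : 𝓞 K) - ((n - 1 : ℤ) : 𝓞 K) := by
      push_cast
      ring
    rw [e]
    exact P.asIdeal.sub_mem h1 (heven _ (by omega))
  have hd2 : d % 2 = 1 := by
    by_contra h0
    exact hd (heven d (by omega))
  obtain ⟨e, he⟩ : ∃ e : ℤ, 1 - d = 2 * e := ⟨(1 - d) / 2, by omega⟩
  have he2 : e % 2 = 1 := by omega
  have hv2 : P.valuation K (2 : K) = WithZero.exp (-1 : ℤ) := by
    have h1 := val_prime (P := P) Nat.prime_two (hr.di 2 Nat.prime_two hp2) (by exact_mod_cast h2)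
    exact_mod_cast h1
  have hv : P.valuation K ((1 - d : ℤ) : K) = WithZero.exp (-1 : ℤ) := by
    rw [he, Int.cast_mul, Int.cast_ofNat, map_mul, locc_val_one (hodd e he2), mul_one, hv2]
  have hdK : ((1 - d : ℤ) : K) ≠ 0 := by
    rw [Int.cast_ne_zero]
    omega
  obtain ⟨y₁, hy₁⟩ := val_fixed hV hD h 1 1
  obtain ⟨y₂, hy₂⟩ := val_fixed hV hD h 1 (-1)
  rw [map_one, one_mul] at hy₁
  rw [map_neg, map_one, neg_one_mul] at hy₂
  have hprod : (1 + D) * (1 + -D) = algebraMap K Kb ((1 - d : ℤ) : K) := by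
    rw [map_intCast]
    push_cast
    rw [← hD]
    ring
  have h5 : V.valuation (algebraMap K Kb (y₁ * y₂)) =
      V.valuation (algebraMap K Kb ((1 - d : ℤ) : K)) := by
    rw [map_mul, map_mul, hy₁, hy₂, ← map_mul, hprod]
  have h6 := locc_val_eq hV hdK h5
  rw [hv] at h6
  have hy0 : y₁ * y₂ ≠ 0 := by
    intro h0
    rw [h0, map_zero] at h6
    exact WithZero.exp_ne_zero h6.symm
  have h2lt : V.valuation (2 : Kb) < 1 := by
    have h1 : V.valuation (algebraMap K Kb (2 : K)) < 1 := by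
      rw [abv_lt hV, hv2, ← WithZero.exp_zero, WithZero.exp_lt_exp]
      norm_num
    rwa [map_ofNat] at h1
  have hplt : V.valuation (1 + D) * V.valuation (1 + -D) < 1 := by
    rw [← map_mul, hprod, abv_lt hV, hv, ← WithZero.exp_zero, WithZero.exp_lt_exp]
    norm_num
  have hor : V.valuation (1 + D) < 1 ∨ V.valuation (1 + -D) < 1 := by
    by_contra h0
    rw [not_or, not_lt, not_lt] at h0
    exact absurd hplt (not_lt.2 (one_le_mul h0.1 h0.2))
  have hboth : V.valuation (1 + D) < 1 ∧ V.valuation (1 + -D) < 1 := by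
    rcases hor with h0 | h0
    · refine ⟨h0, ?_⟩
      have e1 : 1 + -D = 2 - (1 + D) := by ring
      rw [e1]
      exact (V.valuation.map_sub _ _).trans_lt (max_lt h2lt h0)
    · refine ⟨?_, h0⟩
      have e1 : 1 + D = 2 - (1 + -D) := by ring
      rw [e1]
      exact (V.valuation.map_sub _ _).trans_lt (max_lt h2lt h0)
  obtain ⟨n₁, hn₁⟩ := locc_exp (P := P) (left_ne_zero_of_mul hy0)
  obtain ⟨n₂, hn₂⟩ := locc_exp (P := P) (right_ne_zero_of_mul hy0)
  have hl₁ : n₁ < 0 := by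
    have h7 := hboth.1
    rw [← hy₁, abv_lt hV, hn₁, ← WithZero.exp_zero, WithZero.exp_lt_exp] at h7
    exact h7
  have hl₂ : n₂ < 0 := by
    have h7 := hboth.2
    rw [← hy₂, abv_lt hV, hn₂, ← WithZero.exp_zero, WithZero.exp_lt_exp] at h7
    exact h7
  rw [map_mul, hn₁, hn₂, ← WithZero.exp_add, WithZero.exp_inj] at h6
  omega

end Pool.Agent.Lib.MP_1a91b9_nuX.HW
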