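import Pool.Agent.Lib.MP_1a91b9_nuX.HW.LocA
import Pool.Agent.Lib.MP_1a91b9_nuX.HW.LocC
import Pool.Agent.Lib.MP_1a91b9_nuX.HW.FrA
import Pool.Agent.Lib.MP_1a91b9_nuX.HW.FrB

/-!
# The places of bad reduction are the divisors of `fc d p`; the Frobenius at the other places

PROOFS. `fc d p = cp p * cd d`, `cd d = d.natAbs * (1 or 4)`, `cp p = 8` if `p = 2`, `p` otherwise.
* `Dd.bad_f`: `V` with `Abv P V`: `exists_abv P`. If `s ∈ P.asIdeal`: `bad_s hE h.rm`. Otherwise `(p : 𝓞 K) ∉ P` (`Rm.mem_iff`). By `good_D` it is enough to show that not all inertia automorphisms fix `D`. `P` is prime, `(fc d p : 𝓞 K) = (cp p) * (d.natAbs) * (1 or 4) ∈ P`. `(cp p : 𝓞 K) ∈ P` is impossible: if `p = 2`, `8 = 2 ^ 3 ∈ P` gives `2 = p ∈ P`; if `p ≠ 2`: `p ∈ P`.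
  If `(d.natAbs : 𝓞 K) ∈ P` then `(d : 𝓞 K) ∈ P` (`Int.natAbs_eq`): `ntriv_c`. Otherwise the last factor is `4` (`1 ∉ P`), `d % 4 ≠ 1` and `2 ∈ P`: `ntriv_d`.
* `Dd.fr_gen`: `s ∉ P` (if `s ∈ P` then `p ∈ P` and `fc d p ∈ P`: `p ∣ cp p`); `(d : 𝓞 K) ∉ P`. Take `V` with `Abv P V`. All inertia automorphisms fix `D`: if `2 ∉ P`: `triv_a`; if `2 ∈ P`: then `d % 4 = 1` (otherwise the factor `4` is in `P`): `triv_b`. So `P` is good (`good_D`); `fr_unit hE P` gives `ψ`. It remains `ε ψ = kr d q`, `q` the norm: take `σ` with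
  `IsFr V q σ` (`exists_fr hV`), `R ∈ Tr` (`tr_R`), so `ga σ R = sm ψ R` and `σ D = ε ψ * D` (`h.act`); `σ D = kr d q * D` (`fr_odd` if `2 ∉ P`, `fr_even` if `2 ∈ P`); `D ≠ 0` (`D_ne`), `Int.cast_injective` in `Kb`.
-/

set_option autoImplicit false

namespace Pool.Agent.Lib.MP_1a91b9_nuX.HW

open NumberField IsDedekindDomain WeierstrassCurve Pool.Agent.Lib.MP_1a91b9_nuT
open Pool.Agent.Lib.MP_1a91b9_nuX.DB Pool.Agent.Lib.MP_1a91b9_nuX.GL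

variable [CD] {P : HeightOneSpectrum (𝓞 K)} [DecidableEq Kb] {s : 𝓞 K} {k p : ℕ} {ε : 𝓞 K → ℤ}
  {R : Pt Kb} {d : ℤ} {D : Kb}

omit [DecidableEq Kb] in
private theorem gd_nat {n : ℕ} {m : ℤ} (h : n = m.natAbs) :
    ((n : ℕ) : 𝓞 K) ∈ P.asIdeal ↔ ((m : ℤ) : 𝓞 K) ∈ P.asIdeal := by
  subst h
  rcases Int.natAbs_eq m with h1 | h1
  · have e : ((m : ℤ) : 𝓞 K) = ((m.natAbs : ℕ) : 𝓞 K) := by
      conv_lhs => rw [h1]
      rw [Int.cast_natCast]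
    rw [e]
  · have e : ((m : ℤ) : 𝓞 K) = -((m.natAbs : ℕ) : 𝓞 K) := by
      conv_lhs => rw [h1]
      rw [Int.cast_neg, Int.cast_natCast]
    rw [e]
    exact (neg_mem_iff (H := P.asIdeal)).symm

omit [DecidableEq Kb] in
private theorem gd_cp (hp : (p : 𝓞 K) ∉ P.asIdeal) :
    ((cp p : ℕ) : 𝓞 K) ∉ P.asIdeal := by
  unfold cp
  split_ifs with h2
  · intro h8
    have e : ((8 : ℕ) : 𝓞 K) = (p : 𝓞 K) ^ 3 := by
      rw [h2]
      norm_num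
    rw [e] at h8
    exact hp (P.isPrime.mem_of_pow_mem _ h8)
  · exact hp

omit [DecidableEq Kb] in
private theorem gd_cd (h : ((fc d p : ℕ) : 𝓞 K) ∉ P.asIdeal) : (d : 𝓞 K) ∉ P.asIdeal ∧
    ((2 : 𝓞 K) ∈ P.asIdeal → d % 4 = 1) := by
  have e : ((fc d p : ℕ) : 𝓞 K) = ((cp p : ℕ) : 𝓞 K) * (((d.natAbs : ℕ) : 𝓞 K) *
      (((if d % 4 = 1 then 1 else 4 : ℕ) : ℕ) : 𝓞 K)) := by
    unfold fc cd
    rw [Nat.cast_mul, Nat.cast_mul]
  rw [e] at h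
  constructor
  · intro h1
    exact h (Ideal.mul_mem_left _ _ (Ideal.mul_mem_right _ _ ((gd_nat (P := P) rfl).2 h1)))
  · intro h2
    by_contra h4
    rw [if_neg h4] at h
    refine h (Ideal.mul_mem_left _ _ (Ideal.mul_mem_left _ _ ?_))
    have e4 : ((4 : ℕ) : 𝓞 K) = 2 * 2 := by norm_num
    rw [e4]
    exact Ideal.mul_mem_left _ _ h2

omit [DecidableEq Kb] in
private theorem gd_s (hr : Rm s p) (h : ((fc d p : ℕ) : 𝓞 K) ∉ P.asIdeal) : s ∉ P.asIdeal := by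
  intro hs
  refine h ?_
  have h1 : (p : 𝓞 K) ∈ P.asIdeal := (hr.mem_iff).2 hs
  unfold fc
  rw [Nat.cast_mul]
  refine Ideal.mul_mem_right _ _ ?_
  unfold cp
  split_ifs with h2
  · have e : ((8 : ℕ) : 𝓞 K) = 4 * (p : 𝓞 K) := by
      rw [h2]
      norm_num
    rw [e]
    exact Ideal.mul_mem_left _ _ h1
  · exact h1

theorem Dd.bad_f (hE : EllK) (h : Dd s k p ε R d D) (hf : ((fc d p : ℕ) : 𝓞 K) ∈ P.asIdeal) :
    ¬ ∃ C : VariableChange K, GM.GoodW (P.valuation K) (C • E K) := by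
  by_cases hs : s ∈ P.asIdeal
  · exact bad_s hE h.rm hs
  obtain ⟨V, hV⟩ := exists_abv (Ω := Kb) P
  rw [h.good_D hE hs hV]
  have hp : (p : 𝓞 K) ∉ P.asIdeal := fun h1 => hs ((h.rm.mem_iff).1 h1)
  by_cases hd : (d : 𝓞 K) ∈ P.asIdeal
  · exact ntriv_c h.rm hV h.sqD h.sqf hp hd
  have e : ((fc d p : ℕ) : 𝓞 K) = ((cp p : ℕ) : 𝓞 K) * (((d.natAbs : ℕ) : 𝓞 K) *
      (((if d % 4 = 1 then 1 else 4 : ℕ) : ℕ) : 𝓞 K)) := by
    unfold fc cd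
    rw [Nat.cast_mul, Nat.cast_mul]
  rw [e] at hf
  rcases P.isPrime.mem_or_mem hf with h1 | h1
  · exact absurd h1 (gd_cp hp)
  rcases P.isPrime.mem_or_mem h1 with h2 | h2
  · exact absurd ((gd_nat (P := P) rfl).1 h2) hd
  by_cases h4 : d % 4 = 1
  · rw [if_pos h4, Nat.cast_one] at h2
    exact absurd ((Ideal.eq_top_iff_one _).2 h2) P.isPrime.ne_top
  · rw [if_neg h4] at h2
    have e4 : ((4 : ℕ) : 𝓞 K) = 2 ^ 2 := by norm_num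
    rw [e4] at h2
    exact ntriv_d h.rm hV h.sqD hp (P.isPrime.mem_of_pow_mem _ h2) hd h4

theorem Dd.fr_gen (hE : EllK) (h : Dd s k p ε R d D)
    (hf : ((fc d p : ℕ) : 𝓞 K) ∉ P.asIdeal) :
    ∃ ψ : 𝓞 K, Ideal.span {ψ} = P.asIdeal ∧ ε ψ = kr d (Ideal.absNorm P.asIdeal) ∧
      ∀ (V : ValuationSubring Kb), Abv P V → ∀ σ : Kb ≃ₐ[K] Kb,
      IsFr V (Ideal.absNorm P.asIdeal) σ →
      ∀ T : Pt Kb, Tr V.valuation T → ga σ T = sm Kb ψ T := by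
  have hs := gd_s h.rm hf
  obtain ⟨hd, h24⟩ := gd_cd hf
  obtain ⟨V, hV⟩ := exists_abv (Ω := Kb) P
  have htriv : ∀ σ : Kb ≃ₐ[K] Kb, IsFr V 1 σ → σ D = D := by
    intro σ hσ
    by_cases h2 : (2 : 𝓞 K) ∈ P.asIdeal
    · exact triv_b hV h.sqD (h24 h2) h2 σ hσ
    · exact triv_a hV h.sqD h2 hd σ hσ
  have hg := (h.good_D hE hs hV).2 htriv
  obtain ⟨ψ, h1, h2⟩ := fr_unit hE P hg
  refine ⟨ψ, h1, ?_, fun V' hV' σ hσ T hT => h2 V' hV' σ hσ T hT⟩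
  obtain ⟨σ, hσ⟩ := exists_fr hV
  have h3 := h2 V hV σ hσ R (h.tr_R hs hV)
  have h4 := h.act σ ψ h3
  have h5 : σ D = ((kr d (Ideal.absNorm P.asIdeal) : ℤ) : Kb) * D := by
    by_cases h2' : (2 : 𝓞 K) ∈ P.asIdeal
    · exact fr_even hV h.sqD (h24 h2') h2' hσ
    · exact fr_odd hV h.sqD h2' hd hσ
  rw [h5] at h4
  have h6 := mul_right_cancel₀ h.D_ne h4
  have hch : CharZero Kb := charZero_of_injective_algebraMap (algebraMap K Kb).injective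
  exact (Int.cast_injective h6).symm

end Pool.Agent.Lib.MP_1a91b9_nuX.HW
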