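import Pool.Agent.Lib.MP_1a91b9_nuX.HW.FinA
import Pool.Agent.Lib.MP_1a91b9_nuX.HW.Gd
import Pool.Agent.Lib.MP_1a91b9_nuX.HW.ExD

/-!
# The Hecke datum of the curve, units `1`, `-1`
-/

set_option autoImplicit false

namespace Pool.Agent.Lib.MP_1a91b9_nuX.HW

open NumberField IsDedekindDomain WeierstrassCurve Pool.Agent.Lib.MP_1a91b9_nuT
open Pool.Agent.Lib.MP_1a91b9_nuX.DB Pool.Agent.Lib.MP_1a91b9_nuX.GL

variable [CD]

theorem hdat {s : 𝓞 K} {k p : ℕ} {ε : 𝓞 K → ℤ} (hE : EllK) (hr : Rm s p) (hs : Sg s k p ε) :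
    ∃ (f : 𝓞 K) (ps : Ideal (𝓞 K) → 𝓞 K), HDat f ps := by
  classical
  obtain ⟨R, d, D, h⟩ := exists_dd hr hs
  have hd0 : d ≠ 0 := h.sqf.ne_zero
  refine ⟨((fc d p : ℕ) : 𝓞 K), hps ε d p, ?_, ?_, hps_one hr hs, hps_mul hd0 hr hs,
    fun I hI => hps_span hd0 hr hs hI, fun I hI => hps_zero hI, fun a ha => hps_ray hd0 hr hs ha,
    ?_, fun P hP => h.bad_f hE hP⟩
  · have h1 : fc d p ≠ 0 := by
      refine mul_ne_zero ?_ (cd_ne hd0)
      unfold cp
      split_ifs
      · norm_num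
      · exact hr.pp.ne_zero
    exact Nat.cast_ne_zero.2 h1
  · refine ⟨cp p, ?_, ?_⟩
    · unfold cp
      split_ifs with h2
      · norm_num
      · have h3 := hr.pp.two_le
        omega
    · unfold fc
      rw [Nat.cast_mul]
      exact dvd_mul_right _ _
  · intro inst P hf V hV σ hσ n T hn hT
    have hi : inst = fun a b => Classical.propDecidable (a = b) := Subsingleton.elim _ _
    subst hi
    obtain ⟨ψ, h1, h2, h3⟩ := h.fr_gen hE hf
    have h4 : hps ε d p P.asIdeal = ψ := by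
      have hcop : IsCoprime (Ideal.span {ψ}) (Ideal.span {((fc d p : ℕ) : 𝓞 K)}) := by
        rw [h1, Ideal.isCoprime_iff_sup_eq]
        by_contra hc
        have h5 : P.asIdeal = P.asIdeal ⊔ Ideal.span {((fc d p : ℕ) : 𝓞 K)} :=
          P.isMaximal.eq_of_le hc le_sup_left
        refine hf ?_
        rw [h5]
        exact Ideal.mem_sup_right (Ideal.mem_span_singleton_self _)
      have h5 := hps_eq hr hs hcop
      rw [h1, ← h2] at h5
      rw [h5]
      rcases (sg_b hd0 hr hs hcop).1 with h6 | h6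
      · rw [h6]
        push_cast
        ring
      · rw [h6]
        push_cast
        ring
    rw [h4]
    exact h3 V hV σ hσ T ⟨n, hn, hT⟩

end Pool.Agent.Lib.MP_1a91b9_nuX.HW
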