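import Pool.Agent.Lib.MP_1a91b9_nuX.HW.Defs

/-!
# The Hecke character attached to `ε` and `d`

PROOFS. `f = (fc d p : 𝓞 K)`, `fc d p = cp p * cd d`; `s ^ k ∣ (cp p : 𝓞 K)` (`h.dv`), so `s ∣ f` (`k ≠ 0`) and `s ^ k ∣ f`.
* `span_gn`: `Ideal.span_singleton_generator` (`𝓞 K` is a principal ideal ring: `CD.pidK`/instance `pidK`).
* `hps_eq`: `if_pos hb`; `gn (span {b})` is associated to `b` (`Ideal.span_singleton_eq_span_singleton`): `gn = b * u` with `u = 1` or `-1` (`hr.un`): `ε (-b) = ε (-1) * ε b = - ε b` (`h.mul`, `h.neg`).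
* `hps_zero`: `if_neg`.
* `sg_b`: `¬ s ∣ b`: otherwise `span {b} ⊔ span {f} ≤ span {s} ≠ ⊤` (or: `x * b + y * f = 1` gives `s ∣ 1`); `h.sq1`. `Ideal.isCoprime_span_singleton_iff`: `IsCoprime b f`. `n = absNorm (span {b})` is prime to `cd d`: `(n : 𝓞 K) = b * cj b` (`mul_cj`), `IsCoprime (cj b) f` too (apply `cj` to `x * b + y * f = 1`, `map_natCast`), so `IsCoprime (n : 𝓞 K) ((fc d p : ℕ) : 𝓞 K)` (`IsCoprime.mul_left`); for
  natural numbers this gives `Nat.Coprime n (fc d p)`: a prime number `l` dividing both would be a unit of `𝓞 K` (take norms: `absNorm_form l 0 = l ^ 2`, or the coordinates `exists_coords`, `coords_inj`: `l * (m + n' ta) = 1` gives `l m = 1`). Then `Nat.Coprime.coprime_dvd_right` and `kr_sq1`.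
* `hps_one`: `1 = span {1}` (`Ideal.one_eq_top`, `Ideal.span_singleton_one`), `isCoprime_one_left`, `hps_eq` with `b = 1`: `h.one`, `kr_one`, `absNorm` of `⊤` is `1`.
* `hps_mul`: `I = span {a}`, `J = span {b}` (`span_gn`), `I * J = span {a * b}`. If both are coprime to `(f)`: `IsCoprime.mul_left`; `h.mul`, `map_mul` for `absNorm`, `kr_mul` (norms not zero: `a ≠ 0` since `0` is not prime to `f`... the norm is prime to `cd d`; or `Ideal.absNorm_eq_zero_iff` and `IsCoprime ⊥ (f)` means `f` is a unit, impossible as `s ∣ f`). If one is not coprime then `I * J` is not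
  (`IsCoprime.of_mul_left_left`, `IsCoprime.of_mul_left_right`), both sides are `0`.
* `hps_span`: `I = span {b}`, `hps_eq`, `sg_b`: the value is `b` or `-b`.
* `hps_ray`: `IsCoprime a f` since `a - f * x = 1`; `hps_eq`; `ε a = ε 1 = 1` (`h.cong`, `s ^ k ∣ f ∣ a - 1`); `a = 1 + f x`, `cj a = 1 + f (cj x)`, `(n : 𝓞 K) = a * cj a = 1 + f (x + cj x) + f ^ 2 x (cj x)`, so `f ∣ (n : 𝓞 K) - 1`; with coordinates (`exists_coords`, `coords_inj`, `z = m + m' ta`, `(n - 1 : ℤ) = fc d p * z`) the integer `fc d p` divides `n - 1`, so `cd d` too; `kr_cong`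
  (`n ≠ 0` as `a ≠ 0`: `f` is not a unit).
-/

set_option autoImplicit false

namespace Pool.Agent.Lib.MP_1a91b9_nuX.HW

open NumberField IsDedekindDomain WeierstrassCurve Pool.Agent.Lib.MP_1a91b9_nuT
open Pool.Agent.Lib.MP_1a91b9_nuX.DB Pool.Agent.Lib.MP_1a91b9_nuX.GL

variable [CD]

noncomputable section

/-- a generator of an ideal -/
def gn (I : Ideal (𝓞 K)) : 𝓞 K := Submodule.IsPrincipal.generator I

theorem span_gn (I : Ideal (𝓞 K)) : Ideal.span {gn I} = I := by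
  exact Ideal.span_singleton_generator I

open scoped Classical in
/-- the Hecke character -/
def hps (ε : 𝓞 K → ℤ) (d : ℤ) (p : ℕ) (I : Ideal (𝓞 K)) : 𝓞 K :=
  if IsCoprime I (Ideal.span {((fc d p : ℕ) : 𝓞 K)}) then
    ((kr d (Ideal.absNorm I) : ℤ) : 𝓞 K) * ((ε (gn I) : ℤ) : 𝓞 K) * gn I else 0

variable {s : 𝓞 K} {k p : ℕ} {ε : 𝓞 K → ℤ} {d : ℤ}

private theorem finA_int_dvd {a b : ℤ} (h : (a : 𝓞 K) ∣ (b : 𝓞 K)) : a ∣ b := by
  obtain ⟨z, hz⟩ := h
  obtain ⟨m, n, rfl⟩ := exists_coords z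
  have h1 : (b : 𝓞 K) + ((0 : ℤ) : 𝓞 K) * ta = ((a * m : ℤ) : 𝓞 K) + ((a * n : ℤ) : 𝓞 K) * ta := by
    push_cast
    linear_combination hz
  exact ⟨m, (coords_inj h1).1⟩

private theorem finA_nat_dvd {a b : ℕ} (h : (a : 𝓞 K) ∣ (b : 𝓞 K)) : a ∣ b := by
  have h1 : ((a : ℤ) : 𝓞 K) ∣ ((b : ℤ) : 𝓞 K) := by
    rw [Int.cast_natCast, Int.cast_natCast]
    exact h
  exact Int.natCast_dvd_natCast.1 (finA_int_dvd h1)

private theorem finA_coprime {a b : ℕ} (h : IsCoprime (a : 𝓞 K) (b : 𝓞 K)) : a.Coprime b := by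
  refine Nat.Coprime.symm (Nat.coprime_of_dvd fun l hl hb ha => ?_)
  obtain ⟨x, y, hxy⟩ := h
  have h1 : (l : 𝓞 K) ∣ ((1 : ℕ) : 𝓞 K) := by
    rw [Nat.cast_one, ← hxy]
    exact dvd_add (Dvd.dvd.mul_left (by exact_mod_cast Nat.cast_dvd_cast (α := 𝓞 K) ha) _)
      (Dvd.dvd.mul_left (by exact_mod_cast Nat.cast_dvd_cast (α := 𝓞 K) hb) _)
  exact hl.one_lt.ne' (Nat.dvd_one.1 (finA_nat_dvd h1))

private theorem finA_s_pow (h : Sg s k p ε) : s ^ k ∣ ((fc d p : ℕ) : 𝓞 K) := by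
  rw [fc, Nat.cast_mul]
  exact Dvd.dvd.mul_right h.dv _

private theorem finA_s (h : Sg s k p ε) : s ∣ ((fc d p : ℕ) : 𝓞 K) :=
  (dvd_pow_self s h.k0).trans (finA_s_pow h)

private theorem finA_nu (hr : Rm s p) (h : Sg s k p ε) : ¬ IsUnit ((fc d p : ℕ) : 𝓞 K) :=
  fun hu => hr.ps.not_isUnit (isUnit_of_dvd_unit (finA_s h) hu)

private theorem finA_cop {a b : 𝓞 K} (h : IsCoprime (Ideal.span {a}) (Ideal.span {b})) :
    IsCoprime a b := Ideal.isCoprime_span_singleton_iff a b |>.1 h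

private theorem finA_norm_cop {b : 𝓞 K}
    (hb : IsCoprime (Ideal.span {b}) (Ideal.span {((fc d p : ℕ) : 𝓞 K)})) :
    (Ideal.absNorm (Ideal.span {b})).Coprime (cd d) := by
  have h1 := finA_cop hb
  have h2 : IsCoprime (cj b) ((fc d p : ℕ) : 𝓞 K) := by
    obtain ⟨x, y, hxy⟩ := h1
    refine ⟨cj x, cj y, ?_⟩
    have h3 := congrArg cj hxy
    rw [map_add, map_mul, map_mul, map_natCast, map_one] at h3
    exact h3
  have h4 := h1.mul_left h2
  rw [mul_cj] at h4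
  exact (finA_coprime h4).coprime_dvd_right (Dvd.intro_left _ rfl)

private theorem finA_ne (hr : Rm s p) (h : Sg s k p ε) {I : Ideal (𝓞 K)}
    (hI : IsCoprime I (Ideal.span {((fc d p : ℕ) : 𝓞 K)})) : Ideal.absNorm I ≠ 0 := by
  intro h0
  have h1 : I = ⊥ := Ideal.absNorm_eq_zero_iff.1 h0
  rw [h1] at hI
  have h2 : IsCoprime (Ideal.span {(0 : 𝓞 K)}) (Ideal.span {((fc d p : ℕ) : 𝓞 K)}) := by
    rw [Ideal.span_singleton_eq_bot.2 rfl]
    exact hI
  have h3 := finA_cop h2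
  rw [isCoprime_zero_left] at h3
  exact finA_nu hr h h3

/-- the value does not depend on the generator -/
theorem hps_eq (hr : Rm s p) (h : Sg s k p ε) {b : 𝓞 K}
    (hb : IsCoprime (Ideal.span {b}) (Ideal.span {((fc d p : ℕ) : 𝓞 K)})) :
    hps ε d p (Ideal.span {b}) =
      ((kr d (Ideal.absNorm (Ideal.span {b})) : ℤ) : 𝓞 K) * ((ε b : ℤ) : 𝓞 K) * b := by
  unfold hps
  rw [if_pos hb]
  have h1 : Ideal.span {gn (Ideal.span {b})} = Ideal.span {b} := span_gn _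
  obtain ⟨u, hu⟩ := Ideal.span_singleton_eq_span_singleton.1 h1
  rcases hr.un u with h2 | h2
  · rw [h2, Units.val_one, mul_one] at hu
    rw [hu]
  · rw [h2, Units.val_neg, Units.val_one] at hu
    have h3 : gn (Ideal.span {b}) = -1 * b := by linear_combination -hu
    rw [h3, h.mul, h.neg]
    push_cast
    ring

theorem hps_zero {I : Ideal (𝓞 K)} (hI : ¬ IsCoprime I (Ideal.span {((fc d p : ℕ) : 𝓞 K)})) :
    hps ε d p I = 0 := by
  unfold hps
  rw [if_neg hI]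

/-- the two signs are units -/
theorem sg_b (hd : d ≠ 0) (hr : Rm s p) (h : Sg s k p ε) {b : 𝓞 K}
    (hb : IsCoprime (Ideal.span {b}) (Ideal.span {((fc d p : ℕ) : 𝓞 K)})) :
    (ε b = 1 ∨ ε b = -1) ∧ (kr d (Ideal.absNorm (Ideal.span {b})) = 1 ∨
      kr d (Ideal.absNorm (Ideal.span {b})) = -1) := by
  refine ⟨h.sq1 b fun h1 => ?_, kr_sq1 (finA_norm_cop hb)⟩
  obtain ⟨x, y, hxy⟩ := finA_cop hb
  have h2 : s ∣ 1 := by
    rw [← hxy]
    exact dvd_add (Dvd.dvd.mul_left h1 _) (Dvd.dvd.mul_left (finA_s h) _)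
  exact hr.ps.not_isUnit (isUnit_of_dvd_one h2)

theorem hps_one (hr : Rm s p) (h : Sg s k p ε) : hps ε d p 1 = 1 := by
  have h1 : (1 : Ideal (𝓞 K)) = Ideal.span {(1 : 𝓞 K)} := by
    rw [Ideal.span_singleton_one, Ideal.one_eq_top]
  have h2 : IsCoprime (Ideal.span {(1 : 𝓞 K)}) (Ideal.span {((fc d p : ℕ) : 𝓞 K)}) := by
    rw [← h1]
    exact isCoprime_one_left
  rw [h1, hps_eq hr h h2, h.one, ← h1, map_one, kr_one]
  simp

theorem hps_mul (hd : d ≠ 0) (hr : Rm s p) (h : Sg s k p ε) (I J : Ideal (𝓞 K)) :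
    hps ε d p (I * J) = hps ε d p I * hps ε d p J := by
  by_cases hI : IsCoprime I (Ideal.span {((fc d p : ℕ) : 𝓞 K)})
  · by_cases hJ : IsCoprime J (Ideal.span {((fc d p : ℕ) : 𝓞 K)})
    · obtain ⟨a, rfl⟩ : ∃ a, Ideal.span {a} = I := ⟨gn I, span_gn I⟩
      obtain ⟨b, rfl⟩ : ∃ b, Ideal.span {b} = J := ⟨gn J, span_gn J⟩
      have h1 := hI.mul_left hJ
      have h2 : Ideal.span {a} * Ideal.span {b} = Ideal.span {a * b} :=
        Ideal.span_singleton_mul_span_singleton a b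
      rw [h2] at h1
      rw [h2, hps_eq hr h h1, hps_eq hr h hI, hps_eq hr h hJ, ← h2, map_mul,
        kr_mul d (finA_ne hr h hI) (finA_ne hr h hJ), h.mul]
      push_cast
      ring
    · rw [hps_zero hJ, mul_zero, hps_zero fun h1 => hJ h1.of_mul_left_right]
  · rw [hps_zero hI, zero_mul, hps_zero fun h1 => hI h1.of_mul_left_left]

theorem hps_span (hd : d ≠ 0) (hr : Rm s p) (h : Sg s k p ε) {I : Ideal (𝓞 K)}
    (hI : IsCoprime I (Ideal.span {((fc d p : ℕ) : 𝓞 K)})) : Ideal.span {hps ε d p I} = I := by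
  obtain ⟨b, rfl⟩ : ∃ b, Ideal.span {b} = I := ⟨gn I, span_gn I⟩
  rw [hps_eq hr h hI]
  obtain ⟨h1, h2⟩ := sg_b hd hr h hI
  rcases h1 with h1 | h1 <;> rcases h2 with h2 | h2 <;> rw [h1, h2]
  · simp
  · simp
  · simp
  · simp

theorem hps_ray (hd : d ≠ 0) (hr : Rm s p) (h : Sg s k p ε) {a : 𝓞 K}
    (ha : ((fc d p : ℕ) : 𝓞 K) ∣ a - 1) : hps ε d p (Ideal.span {a}) = a := by
  obtain ⟨x, hx⟩ := ha
  have ha1 : a = 1 + ((fc d p : ℕ) : 𝓞 K) * x := by linear_combination hx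
  have hc : IsCoprime (Ideal.span {a}) (Ideal.span {((fc d p : ℕ) : 𝓞 K)}) := by
    rw [Ideal.isCoprime_span_singleton_iff]
    exact ⟨1, -x, by linear_combination hx⟩
  have hn : (cd d : ℤ) ∣ ((Ideal.absNorm (Ideal.span {a}) : ℕ) : ℤ) - 1 := by
    have h1 : ((fc d p : ℕ) : 𝓞 K) ∣ ((Ideal.absNorm (Ideal.span {a}) : ℕ) : 𝓞 K) - 1 := by
      rw [← mul_cj, ha1, map_add, map_mul, map_natCast, map_one]
      exact ⟨x + cj x + ((fc d p : ℕ) : 𝓞 K) * (x * cj x), by ring⟩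
    have h2 : (((fc d p : ℕ) : ℤ) : 𝓞 K) ∣
        ((((Ideal.absNorm (Ideal.span {a}) : ℕ) : ℤ) - 1 : ℤ) : 𝓞 K) := by
      push_cast
      exact h1
    have h3 : ((cd d : ℕ) : ℤ) ∣ ((fc d p : ℕ) : ℤ) :=
      Int.natCast_dvd_natCast.2 (Dvd.intro_left _ rfl)
    exact h3.trans (finA_int_dvd h2)
  have he : ε a = 1 := by
    rw [← h.one]
    exact h.cong a 1 ((finA_s_pow h).trans ⟨x, hx⟩)
  rw [hps_eq hr h hc, kr_cong (finA_ne hr h hc) hn, he]
  simp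

end

end Pool.Agent.Lib.MP_1a91b9_nuX.HW
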