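import Pool.Agent.Lib.MP_1a91b9_nuX.HW.Defs

/-!
# Good reduction at a place not above `p` in terms of the inertia action on `D`

PROOFS.
* `Rm.mem_iff`: `(p : 𝓞 K) = -(s * s)` (`h.sq`), `P` is prime.
* `Rm.eq_span`: `Ideal.span {s} ≤ P.asIdeal`, `Ideal.span {s}` is maximal (prime, not zero in a Dedekind domain: `Ideal.span_singleton_prime`, `Ideal.IsPrime.isMaximal`), `IsMaximal.eq_of_le`.
* `bad_s`: `ram_bad hE P h.pp ?_ ?_` with `P.asIdeal = span {s}`: norm `h.nm`; `Ideal.map_span`, `Set.image_singleton`, `h.cjs`: `span {-s} = span {s}` (`Ideal.span_singleton_neg`).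
* `Dd.D_ne`: otherwise `d = 0` (cast to `Kb`, characteristic zero), not squarefree (`h.sqf.ne_zero`).
* `Dd.tr_R`: `n = p ^ k`: `V.valuation (p : Kb) = 1` as `p ∉ P` (`Rm.mem_iff`, `abv_eq hV`, `(p : Kb) = algebraMap K Kb ((p : 𝓞 K) : K)`, `HeightOneSpectrum.valuation_eq_one_iff_notMem`), and `(p ^ k) • R = sm (p ^ k : 𝓞 K) R = 0` as `s ^ k ∣ (p : 𝓞 K) ^ k` (`p = -(s * s)`); for `n • R = sm n R`: `sm_nat` (DB/Om) or `map_natCast`.
* `Dd.good_D`: `good_iff hV`. (→): `σ T = T` on `Tr`, so `ga σ R = R = sm 1 R`, `h.act σ 1`, `h.sg.one`. (←): let `σ` be with `IsFr V 1 σ`; `in_unit hE hV hσ`: `ζ` with `ga σ T = sm ζ T` on `Tr`; `h.rm.un ζ`: if `ζ = 1`: done (`sm_one`). If `ζ = -1`: `ga σ R = sm (-1) R`, `σ D = ε (-1) * D = -D` and `σ D = D`: `D = 0` (characteristic zero), contradiction to `D_ne`.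
-/

set_option autoImplicit false

namespace Pool.Agent.Lib.MP_1a91b9_nuX.HW

open NumberField IsDedekindDomain WeierstrassCurve Pool.Agent.Lib.MP_1a91b9_nuT
open Pool.Agent.Lib.MP_1a91b9_nuX.DB Pool.Agent.Lib.MP_1a91b9_nuX.GL

variable [CD] {P : HeightOneSpectrum (𝓞 K)}

theorem Rm.mem_iff {s : 𝓞 K} {p : ℕ} (h : Rm s p) : (p : 𝓞 K) ∈ P.asIdeal ↔ s ∈ P.asIdeal := by
  have e : (p : 𝓞 K) = -(s ^ 2) := by rw [h.sq, neg_neg]
  rw [e, neg_mem_iff]
  constructor
  · intro h1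
    exact P.isPrime.mem_of_pow_mem 2 h1
  · intro h1
    exact Ideal.pow_mem_of_mem _ h1 2 two_pos

/-- the place containing `s` -/
theorem Rm.eq_span {s : 𝓞 K} {p : ℕ} (h : Rm s p) (hs : s ∈ P.asIdeal) :
    P.asIdeal = Ideal.span {s} := by
  have h1 : (Ideal.span {s} : Ideal (𝓞 K)).IsPrime := (Ideal.span_singleton_prime h.ps.ne_zero).2 h.ps
  have h2 : (Ideal.span {s} : Ideal (𝓞 K)) ≠ ⊥ := by
    rw [Ne, Ideal.span_singleton_eq_bot]
    exact h.ps.ne_zero
  have h3 : (Ideal.span {s} : Ideal (𝓞 K)).IsMaximal := h1.isMaximal h2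
  exact (h3.eq_of_le P.isPrime.ne_top ((Ideal.span_singleton_le_iff_mem _).2 hs)).symm

/-- the place containing `s` is bad -/
theorem bad_s (hE : EllK) {s : 𝓞 K} {p : ℕ} (h : Rm s p) (hs : s ∈ P.asIdeal) :
    ¬ ∃ C : VariableChange K, GM.GoodW (P.valuation K) (C • E K) := by
  have e := h.eq_span hs
  refine ram_bad hE P h.pp ?_ ?_
  · rw [e]
    exact h.nm
  · rw [e, Ideal.map_span, Set.image_singleton]
    have h1 : cj s = -s := h.cjs
    rw [h1, Ideal.span_singleton_neg]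

variable [DecidableEq Kb] {s : 𝓞 K} {k p : ℕ} {ε : 𝓞 K → ℤ} {R : Pt Kb} {d : ℤ} {D : Kb}

theorem Dd.D_ne (h : Dd s k p ε R d D) : D ≠ 0 := by
  intro hD
  have h1 := h.sqD
  rw [hD, zero_pow two_ne_zero] at h1
  have h2 : d = 0 := by
    have h3 : ((0 : ℤ) : Kb) = (d : Kb) := by rw [Int.cast_zero]; exact h1
    exact (Int.cast_injective h3).symm
  exact h.sqf.ne_zero h2

/-- the point `R` is of order prime to `P` -/
theorem Dd.tr_R (h : Dd s k p ε R d D) (hs : s ∉ P.asIdeal) {V : ValuationSubring Kb}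
    (hV : Abv P V) : Tr V.valuation R := by
  have hp : (p : 𝓞 K) ∉ P.asIdeal := fun h1 => hs (h.rm.mem_iff.1 h1)
  have hv : P.valuation K ((p : 𝓞 K) : K) = 1 := by
    refine le_antisymm (P.valuation_le_one _) (not_lt.1 fun h1 => hp ?_)
    exact (GM.val_lt_mem (w := P) (p : 𝓞 K)).1 h1
  have hv' : V.valuation (p : Kb) = 1 := by
    have h1 := (abv_eq hV ((p : 𝓞 K) : K)).2 hv
    have e : algebraMap K Kb ((p : 𝓞 K) : K) = (p : Kb) := by
      rw [← map_natCast (algebraMap K Kb) p]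
      exact congrArg _ (map_natCast (algebraMap (𝓞 K) K) p)
    rw [e] at h1
    exact h1
  refine ⟨p ^ k, ?_, ?_⟩
  · rw [Nat.cast_pow, map_pow, hv', one_pow]
  · rw [← sm_nat, h.ord, Nat.cast_pow]
    refine pow_dvd_pow_of_dvd ⟨-s, ?_⟩ k
    have h1 := h.rm.sq
    linear_combination h1

/-- good reduction is the triviality of the action of inertia on `D` -/
theorem Dd.good_D (hE : EllK) (h : Dd s k p ε R d D) (hs : s ∉ P.asIdeal)
    {V : ValuationSubring Kb} (hV : Abv P V) :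
    (∃ C : VariableChange K, GM.GoodW (P.valuation K) (C • E K)) ↔
      ∀ σ : Kb ≃ₐ[K] Kb, IsFr V 1 σ → σ D = D := by
  rw [good_iff hV]
  have hR := h.tr_R hs hV
  constructor
  · intro h1 σ hσ
    have e2 : ga σ R = sm Kb 1 R := by rw [h1 σ hσ R hR, sm_one]
    have h2 := h.act σ 1 e2
    rw [h.sg.one, Int.cast_one, one_mul] at h2
    exact h2
  · intro h1 σ hσ
    obtain ⟨ζ, hζ⟩ := in_unit hE hV hσ
    rcases h.rm.un ζ with hz | hz
    · intro T hT
      rw [hζ T hT, hz, Units.val_one, sm_one]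
    · exfalso
      have e := hζ R hR
      have e1 := h.act σ _ e
      rw [h1 σ hσ, hz, Units.val_neg, Units.val_one, h.sg.neg] at e1
      have e2 : D = 0 := by
        push_cast at e1
        have e3 : (2 : Kb) * D = 0 := by linear_combination e1
        exact (mul_eq_zero.1 e3).resolve_left two_ne
      exact h.D_ne e2

end Pool.Agent.Lib.MP_1a91b9_nuX.HW
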