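import Pool.Agent.Lib.MP_1a91b9_nuX.HW.Fin
import Pool.Agent.Lib.MP_1a91b9_nuX.HW.EpsO
import Pool.Agent.Lib.MP_1a91b9_nuX.HW.EpsT

/-!
# The Hecke datum for the seven fields with the units `1`, `-1`
-/

set_option autoImplicit false

namespace Pool.Agent.Lib.MP_1a91b9_nuX.HW

open NumberField IsDedekindDomain WeierstrassCurve Pool.Agent.Lib.MP_1a91b9_nuT
open Pool.Agent.Lib.MP_1a91b9_nuX.DB Pool.Agent.Lib.MP_1a91b9_nuX.GL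

variable [CD]

theorem hdat_two (hE : EllK) (h : ((CD.tr, CD.nm) : ℤ × ℤ) ∈ UF.oList) :
    ∃ (f : 𝓞 K) (ps : Ideal (𝓞 K) → 𝓞 K), HDat f ps := by
  obtain ⟨p, ε, hr, hs⟩ := rm_o h
  exact hdat hE hr hs

theorem hdat_eight (hE : EllK) (h1 : CD.tr = 0) (h2 : CD.nm = 2) :
    ∃ (f : 𝓞 K) (ps : Ideal (𝓞 K) → 𝓞 K), HDat f ps := by
  obtain ⟨ε, hr, hs⟩ := rm_t h1 h2
  exact hdat hE hr hs

/-- the seven fields -/
theorem hdat_q (hE : EllK) (h : ((CD.tr, CD.nm) : ℤ × ℤ) ∈ UF.qList) :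
    ∃ (f : 𝓞 K) (ps : Ideal (𝓞 K) → 𝓞 K), HDat f ps := by
  rcases UF.qList_cases h with h1 | h1
  · rw [Prod.mk.injEq] at h1
    exact hdat_eight hE h1.1 h1.2
  · exact hdat_two hE h1

end Pool.Agent.Lib.MP_1a91b9_nuX.HW
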