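import Pool.Agent.Lib.MP_1a91b9_nuX.HW.Defs

/-!
# Sums over the residue classes modulo `β`

`qs β F`: the sum of `F` over representatives of `𝓞 K / β`; `qs_perm`: invariance under `a ↦ j a * c`, `c` prime to `β`.

PROOFS.
* `fin_quot`: `Ideal.finiteQuotientOfFreeOfNeBot` with `Ideal.span {β} ≠ ⊥` (`Ideal.span_singleton_eq_bot`).
* `qs_perm`: let `e : 𝓞 K ⧸ (β) → 𝓞 K ⧸ (β)`, `e q = mk (j (rep β q) * c)`. Apply `finsum_eq_of_bijective e he ?_`.
  The terms: `F (j (rep β q) * c) = F (rep β (e q))` by `hF` as `β ∣ rep β (e q) - j (rep β q) * c` (`rep_dvd`; symmetric version by `dvd_sub_comm`).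
  Bijective: `Finite.injective_iff_bijective` (with `fin_quot`); injective: if `mk (j x * c) = mk (j y * c)` then `β ∣ j x * c - j y * c = j (x - y) * c`,
  `c` is prime to `β` so `β ∣ j (x - y)` (`IsCoprime.dvd_of_dvd_mul_right hc.symm`), so `β ∣ x - y` by `hj`; with `x = rep β q`, `y = rep β q'` and
  `mk_rep` we get `q = q'` (`Ideal.Quotient.eq`, `Ideal.mem_span_singleton`).
-/

set_option autoImplicit false

namespace Pool.Agent.Lib.MP_1a91b9_nuX.HW

open NumberField IsDedekindDomain WeierstrassCurve Pool.Agent.Lib.MP_1a91b9_nuT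
open Pool.Agent.Lib.MP_1a91b9_nuX.DB Pool.Agent.Lib.MP_1a91b9_nuX.GL

variable [CD]

noncomputable section

/-- a representative -/
def rep (β : 𝓞 K) (q : 𝓞 K ⧸ Ideal.span {β}) : 𝓞 K :=
  Function.surjInv Ideal.Quotient.mk_surjective q

theorem mk_rep (β : 𝓞 K) (q : 𝓞 K ⧸ Ideal.span {β}) :
    Ideal.Quotient.mk (Ideal.span {β}) (rep β q) = q :=
  Function.surjInv_eq Ideal.Quotient.mk_surjective q

theorem rep_dvd (β a : 𝓞 K) : β ∣ rep β (Ideal.Quotient.mk (Ideal.span {β}) a) - a := by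
  have h := mk_rep β (Ideal.Quotient.mk (Ideal.span {β}) a)
  rwa [Ideal.Quotient.eq, Ideal.mem_span_singleton] at h

/-- the sum over the residue classes modulo `β` -/
def qs (β : 𝓞 K) (F : 𝓞 K → Kb) : Kb := ∑ᶠ q : 𝓞 K ⧸ Ideal.span {β}, F (rep β q)

theorem fin_quot {β : 𝓞 K} (hβ : β ≠ 0) : Finite (𝓞 K ⧸ Ideal.span {β}) := by
  have h : Ideal.span {β} ≠ ⊥ := by
    rw [Ne, Ideal.span_singleton_eq_bot]
    exact hβ
  exact Ideal.finiteQuotientOfFreeOfNeBot _ h

theorem qs_perm {β : 𝓞 K} (hβ : β ≠ 0) {F : 𝓞 K → Kb} (hF : ∀ a b, β ∣ a - b → F a = F b)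
    (j : 𝓞 K →+* 𝓞 K) (hj : ∀ a, β ∣ j a ↔ β ∣ a) {c : 𝓞 K} (hc : IsCoprime c β) :
    qs β (fun a => F (j a * c)) = qs β F := by
  haveI := fin_quot hβ
  have hinj : Function.Injective (fun q : 𝓞 K ⧸ Ideal.span {β} =>
      Ideal.Quotient.mk (Ideal.span {β}) (j (rep β q) * c)) := by
    intro q q' h
    change Ideal.Quotient.mk (Ideal.span {β}) (j (rep β q) * c) =
      Ideal.Quotient.mk (Ideal.span {β}) (j (rep β q') * c) at h
    rw [Ideal.Quotient.eq, Ideal.mem_span_singleton, ← sub_mul, ← map_sub] at h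
    have h1 : β ∣ j (rep β q - rep β q') := IsCoprime.dvd_of_dvd_mul_right hc.symm h
    have h2 : β ∣ rep β q - rep β q' := (hj _).1 h1
    rw [← mk_rep β q, ← mk_rep β q', Ideal.Quotient.eq, Ideal.mem_span_singleton]
    exact h2
  have hbij := Finite.injective_iff_bijective.1 hinj
  refine finsum_eq_of_bijective _ hbij ?_
  intro q
  exact hF _ _ ((dvd_sub_comm).1 (rep_dvd β (j (rep β q) * c)))

end

end Pool.Agent.Lib.MP_1a91b9_nuX.HW
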