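import Pool.Agent.Lib.MP_1a91b9_nuX.HW.SumA

/-!
# The sums `Σ ε(a) y(a R) x(a R) ^ i` over the residue classes modulo `s ^ k`

`exists_Y`: one of them is not zero; `map_Y`: the action of the field homomorphisms.

PROOFS. Write `β = s ^ k`; `β ≠ 0`. By `Ord.sm_eq_iff hR : sm F c R = sm F d R ↔ β ∣ c - d` the point `sm Kb a R` depends only on `a` modulo `β`, and
so does `ε a` (`h.cong`).
* `map_Y`. `hm`: the function `F a = ε a * yc (a R) * xc (a R) ^ i` satisfies `F a = F b` for `β ∣ a - b`. Apply `g` to the `finsum`: `AddMonoidHom.map_finsum`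
  (or `map_finsum`) with finite support (`Set.toFinite _`, from `fin_quot`): `g (qs β F) = qs β (fun a => g (F a))`. From `hg a`, `xc_rph`, `yc_rph`:
  `g (xc (sm a R)) = xc (sm (j a * c) R)` and the same for `yc`; `g (ε a) = ε a` (`map_intCast`). `ε (j a * c) = ε (j a) * ε c = ε a * ε c` and
  `ε c ^ 2 = 1` (`h.sq1 c (h.ne_dvd hs hc)`), so `ε a = ε (j a * c) * ε c`. Hence `g (F a) = ε c * F (j a * c)`; then `mul_finsum` and `qs_perm` (with `j`, `hj`, `hc`).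
* `exists_Y`. Suppose all `Yi ε β R i = 0`. Let `Q = 𝓞 K ⧸ (β)`, a `Fintype` (`Fintype.ofFinite`), `finsum_eq_sum_of_fintype`. For `q : Q` let `e q = ε (rep β q)`, `x q`, `y q` the coordinates of
  `sm Kb (rep β q) R`. For every polynomial `f : Polynomial Kb`: `∑ q, e q * y q * f.eval (x q) = 0` (write `f.eval z = ∑ i ∈ range (f.natDegree + 1), f.coeff i * z ^ i`,
  `Polynomial.eval_eq_sum_range`, exchange the sums `Finset.sum_comm`). Let `x1 = xc R`, `S` the finset image of `x` minus `x1`, `f = ∏ z ∈ S, (X - C z)`.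
  `f.eval (x q) = 0` if `x q ≠ x1`, and `c0 := f.eval x1 ≠ 0` (`Polynomial.eval_prod`, `Finset.prod_ne_zero_iff`).
  If `x q = x1`: either `e q = 0` (if `s ∣ rep β q`), or `s ∤ rep β q`: then `sm (rep β q) R ≠ 0` (otherwise `β ∣ rep β q`, and `s ∣ β`), `R ≠ 0` (otherwise `β ∣ 1`), so the point `sm (rep β q) R` is `R` or `-R`
  (same abscissa: `exists_mk`, `y ^ 2 = y1 ^ 2`, `mk_inj`, `neg_mk`, `pt_ext`). If it is `R = sm 1 R`: `β ∣ rep β q - 1`, `e q = ε 1 = 1`, `y q = yc R`, so `e q * y q = yc R`. If it is `-R = sm (-1) R`: `e q = ε (-1) = -1`, `y q = - yc R`,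
  again `e q * y q = yc R`. So the sum is `N * yc R * c0 = 0` where `N` is the number of the `q` with `x q = x1` and `e q ≠ 0`; `N ≥ 1` (`q = mk 1`: `rep β q ≡ 1`, `sm (rep β q) R = R`, `e q = 1`). `Kb` has characteristic zero (`CharZero Kb`: `charZero_of_injective_algebraMap (algebraMap K Kb).injective`), so `yc R = 0`.
  Then `-R = R` (`exists_mk`, `neg_mk`, `mk_inj`), i.e. `sm 2 R = R + R = 0` (`sm_add`, `sm_one`), so `β ∣ 2` (hR): contradiction to `h.n2`.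
-/

set_option autoImplicit false

namespace Pool.Agent.Lib.MP_1a91b9_nuX.HW

open NumberField IsDedekindDomain WeierstrassCurve Pool.Agent.Lib.MP_1a91b9_nuT
open Pool.Agent.Lib.MP_1a91b9_nuX.DB Pool.Agent.Lib.MP_1a91b9_nuX.GL

variable [CD]

noncomputable section

variable [DecidableEq Kb]

/-- the sum -/
def Yi (ε : 𝓞 K → ℤ) (β : 𝓞 K) (R : Pt Kb) (i : ℕ) : Kb :=
  qs β fun a => ((ε a : ℤ) : Kb) * yc (sm Kb a R) * xc (sm Kb a R) ^ i

variable {s : 𝓞 K} {k p : ℕ} {ε : 𝓞 K → ℤ}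

private theorem sumb_vand {Q L : Type*} [Fintype Q] [Field L] [DecidableEq L] (w x : Q → L)
    (h : ∀ i : ℕ, ∑ q, w q * x q ^ i = 0) (x1 : L) :
    ∑ q ∈ Finset.univ.filter (fun q => x q = x1), w q = 0 := by
  have h2 : ∀ f : Polynomial L, ∑ q, w q * f.eval (x q) = 0 := by
    intro f
    have h3 : ∀ q, w q * f.eval (x q) =
        ∑ i ∈ Finset.range (f.natDegree + 1), f.coeff i * (w q * x q ^ i) := by
      intro q
      rw [Polynomial.eval_eq_sum_range, Finset.mul_sum]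
      exact Finset.sum_congr rfl fun i _ => by ring
    rw [Finset.sum_congr rfl fun q _ => h3 q, Finset.sum_comm]
    apply Finset.sum_eq_zero
    intro i _
    rw [← Finset.mul_sum, h i, mul_zero]
  obtain ⟨f, hf⟩ : ∃ f : Polynomial L,
    f = ∏ z ∈ (Finset.univ.image x).erase x1, (Polynomial.X - Polynomial.C z) := ⟨_, rfl⟩
  have hf1 : f.eval x1 ≠ 0 := by
    rw [hf, Polynomial.eval_prod, Finset.prod_ne_zero_iff]
    intro z hz
    rw [Polynomial.eval_sub, Polynomial.eval_X, Polynomial.eval_C]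
    exact sub_ne_zero.2 (Finset.ne_of_mem_erase hz).symm
  have hf0 : ∀ q, x q ≠ x1 → f.eval (x q) = 0 := by
    intro q hq
    rw [hf, Polynomial.eval_prod]
    apply Finset.prod_eq_zero
      (Finset.mem_erase.2 ⟨hq, Finset.mem_image_of_mem _ (Finset.mem_univ q)⟩)
    rw [Polynomial.eval_sub, Polynomial.eval_X, Polynomial.eval_C, sub_self]
  have h3 := h2 f
  rw [← Finset.sum_filter_add_sum_filter_not Finset.univ (fun q => x q = x1)] at h3
  have h4 : ∑ q ∈ Finset.univ.filter (fun q => ¬ x q = x1), w q * f.eval (x q) = 0 := by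
    apply Finset.sum_eq_zero
    intro q hq
    rw [hf0 q (Finset.mem_filter.1 hq).2, mul_zero]
  have h5 : ∑ q ∈ Finset.univ.filter (fun q => x q = x1), w q * f.eval (x q) =
      (∑ q ∈ Finset.univ.filter (fun q => x q = x1), w q) * f.eval x1 := by
    rw [Finset.sum_mul]
    apply Finset.sum_congr rfl
    intro q hq
    rw [(Finset.mem_filter.1 hq).2]
  rw [h4, h5, add_zero] at h3
  exact (mul_eq_zero.1 h3).resolve_right hf1

private theorem sumb_ne (h : Sg s k p ε) {R : Pt Kb} (hR : Ord (s ^ k) R) {a : 𝓞 K}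
    (ha : ¬ s ∣ a) : sm Kb a R ≠ 0 := fun h0 =>
  ha (dvd_trans (dvd_pow_self s h.k0) ((hR a).1 h0))

private theorem sumb_ne1 (hs : Prime s) (h : Sg s k p ε) {R : Pt Kb} (hR : Ord (s ^ k) R) :
    R ≠ 0 := by
  have h1 := sumb_ne h hR (a := 1) (fun h2 => hs.not_isUnit (isUnit_of_dvd_one h2))
  rwa [sm_one] at h1

private theorem sumb_negx {R : Pt Kb} (hR : R ≠ 0) : xc (-R) = xc R ∧ yc (-R) = - yc R := by
  obtain ⟨h1, h2⟩ := exists_mk hR
  have h3 : -R = mkPt (xc R) (-(yc R)) (by linear_combination h1) := by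
    rw [← neg_mk _ _ h1, ← h2]
  constructor
  · rw [h3, xc_mk]
  · rw [h3, yc_mk]

private theorem sumb_w (hs : Prime s) (h : Sg s k p ε) {R : Pt Kb} (hR : Ord (s ^ k) R) {a : 𝓞 K}
    (hx : xc (sm Kb a R) = xc R) (ha : ¬ s ∣ a) : ((ε a : ℤ) : Kb) * yc (sm Kb a R) = yc R := by
  have hR0 := sumb_ne1 hs h hR
  have ha0 := sumb_ne h hR ha
  obtain ⟨h1, -⟩ := exists_mk hR0
  obtain ⟨h2, -⟩ := exists_mk ha0
  rw [hx] at h2
  have h3 : (yc (sm Kb a R) - yc R) * (yc (sm Kb a R) + yc R) = 0 := by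
    linear_combination h2 - h1
  rcases mul_eq_zero.1 h3 with h4 | h4
  · have h5 : sm Kb a R = sm Kb 1 R := by
      rw [sm_one]
      exact pt_ext ha0 hR0 hx (sub_eq_zero.1 h4)
    rw [hR.sm_eq_iff] at h5
    rw [h.cong a 1 h5, h.one, Int.cast_one, one_mul, sub_eq_zero.1 h4]
  · have h6 := eq_neg_of_add_eq_zero_left h4
    obtain ⟨h7, h8⟩ := sumb_negx hR0
    have h5 : sm Kb a R = sm Kb (-1) R := by
      have h9 : sm Kb (-1) R = -R := by
        rw [map_neg, map_one]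
        rfl
      rw [h9]
      exact pt_ext ha0 (neg_ne_zero.2 hR0) (hx.trans h7.symm) (h6.trans h8.symm)
    rw [hR.sm_eq_iff] at h5
    rw [h.cong a (-1) h5, h.neg, h6, Int.cast_neg, Int.cast_one]
    ring

theorem exists_Y (hs : Prime s) (h : Sg s k p ε) {R : Pt Kb} (hR : Ord (s ^ k) R) :
    ∃ i, Yi ε (s ^ k) R i ≠ 0 := by
  classical
  by_contra hc
  push Not at hc
  have hβ : s ^ k ≠ 0 := pow_ne_zero _ hs.ne_zero
  have hfin := fin_quot hβ
  have hcz : CharZero Kb := charZero_of_injective_algebraMap (algebraMap K Kb).injective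
  have hft := Fintype.ofFinite (𝓞 K ⧸ Ideal.span {s ^ k})
  have h1 : ∀ i, ∑ q : 𝓞 K ⧸ Ideal.span {s ^ k},
      (((ε (rep (s ^ k) q) : ℤ) : Kb) * yc (sm Kb (rep (s ^ k) q) R)) *
        xc (sm Kb (rep (s ^ k) q) R) ^ i = 0 := by
    intro i
    rw [← finsum_eq_sum_of_fintype]
    exact hc i
  have h2 := sumb_vand _ _ h1 (xc R)
  have h3 : ∀ q ∈ Finset.univ.filter (fun q : 𝓞 K ⧸ Ideal.span {s ^ k} =>
      xc (sm Kb (rep (s ^ k) q) R) = xc R),
      ((ε (rep (s ^ k) q) : ℤ) : Kb) * yc (sm Kb (rep (s ^ k) q) R) =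
        if ¬ s ∣ rep (s ^ k) q then yc R else 0 := by
    intro q hq
    by_cases h4 : s ∣ rep (s ^ k) q
    · rw [if_neg (not_not.2 h4), h.zero _ h4, Int.cast_zero, zero_mul]
    · rw [if_pos h4]
      exact sumb_w hs h hR (Finset.mem_filter.1 hq).2 h4
  rw [Finset.sum_congr rfl h3, ← Finset.sum_filter, Finset.sum_const, nsmul_eq_mul] at h2
  have hq1 : (s ^ k) ∣ rep (s ^ k) (Ideal.Quotient.mk (Ideal.span {s ^ k}) 1) - 1 := rep_dvd _ _
  have h5 : Ideal.Quotient.mk (Ideal.span {s ^ k}) 1 ∈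
      (Finset.univ.filter (fun q : 𝓞 K ⧸ Ideal.span {s ^ k} =>
        xc (sm Kb (rep (s ^ k) q) R) = xc R)).filter (fun q => ¬ s ∣ rep (s ^ k) q) := by
    rw [Finset.mem_filter, Finset.mem_filter]
    refine ⟨⟨Finset.mem_univ _, ?_⟩, ?_⟩
    · rw [(hR.sm_eq_iff _ 1).2 hq1, sm_one]
    · intro h6
      have h7 : s ∣ 1 := by
        have h8 := dvd_sub h6 (dvd_trans (dvd_pow_self s h.k0) hq1)
        rwa [sub_sub_cancel] at h8
      exact hs.not_isUnit (isUnit_of_dvd_one h7)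
  have h6 := Finset.card_pos.2 ⟨_, h5⟩
  have h7 : yc R = 0 := (mul_eq_zero.1 h2).resolve_left (Nat.cast_ne_zero.2 h6.ne')
  have hR0 := sumb_ne1 hs h hR
  obtain ⟨h8, h9⟩ := sumb_negx hR0
  have h10 : -R = R := pt_ext (neg_ne_zero.2 hR0) hR0 h8 (by rw [h9, h7, neg_zero])
  have h11 : sm Kb 2 R = 0 := by
    rw [← one_add_one_eq_two, sm_add, sm_one]
    nth_rewrite 1 [← h10]
    exact neg_add_cancel R
  exact h.n2 ((hR 2).1 h11)

theorem map_Y (hs : Prime s) (h : Sg s k p ε) {R : Pt Kb} (hR : Ord (s ^ k) R) (g : Kb →+* Kb)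
    (j : 𝓞 K →+* 𝓞 K) (hj : ∀ a, s ^ k ∣ j a ↔ s ^ k ∣ a) (hε : ∀ a, ε (j a) = ε a)
    {c : 𝓞 K} (hc : IsCoprime c (s ^ k)) (hg : ∀ a, rp g (sm Kb a R) = sm Kb (j a * c) R) (i : ℕ) :
    g (Yi ε (s ^ k) R i) = ((ε c : ℤ) : Kb) * Yi ε (s ^ k) R i := by
  have hβ : s ^ k ≠ 0 := pow_ne_zero _ hs.ne_zero
  have hfin := fin_quot hβ
  have hε2 : ((ε c : ℤ) : Kb) * ((ε c : ℤ) : Kb) = 1 := by
    rcases h.sq1 c (h.ne_dvd hs hc) with h1 | h1
    · rw [h1, Int.cast_one, one_mul]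
    · rw [h1, Int.cast_neg, Int.cast_one, neg_mul_neg, one_mul]
  have key : ∀ a, g (((ε a : ℤ) : Kb) * yc (sm Kb a R) * xc (sm Kb a R) ^ i) =
      ((ε c : ℤ) : Kb) * (((ε (j a * c) : ℤ) : Kb) * yc (sm Kb (j a * c) R) *
        xc (sm Kb (j a * c) R) ^ i) := by
    intro a
    rw [map_mul, map_mul, map_pow, map_intCast, ← xc_rph, ← yc_rph, hg, h.mul, hε, Int.cast_mul]
    linear_combination -(((ε a : ℤ) : Kb) * yc (sm Kb (j a * c) R) *
        xc (sm Kb (j a * c) R) ^ i) * hε2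
  have h1 : g (Yi ε (s ^ k) R i) =
      qs (s ^ k) (fun a => g (((ε a : ℤ) : Kb) * yc (sm Kb a R) * xc (sm Kb a R) ^ i)) := by
    unfold Yi qs
    exact AddMonoidHom.map_finsum g.toAddMonoidHom (Set.toFinite _)
  rw [h1, funext key]
  have h2 : qs (s ^ k) (fun a => ((ε c : ℤ) : Kb) * (((ε (j a * c) : ℤ) : Kb) *
      yc (sm Kb (j a * c) R) * xc (sm Kb (j a * c) R) ^ i)) =
      ((ε c : ℤ) : Kb) * qs (s ^ k) (fun a => ((ε (j a * c) : ℤ) : Kb) *
      yc (sm Kb (j a * c) R) * xc (sm Kb (j a * c) R) ^ i) := by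
    unfold qs
    exact (mul_finsum _ _).symm
  rw [h2]
  congr 1
  exact qs_perm hβ (F := fun a => ((ε a : ℤ) : Kb) * yc (sm Kb a R) * xc (sm Kb a R) ^ i)
    (fun a b hab => by
      change ((ε a : ℤ) : Kb) * yc (sm Kb a R) * xc (sm Kb a R) ^ i = _
      rw [h.cong a b hab, (hR.sm_eq_iff a b).2 hab]) j hj hc

end

end Pool.Agent.Lib.MP_1a91b9_nuX.HW
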