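import Pool.Agent.Lib.MP_1a91b9_nuX.HW.Defs

/-!
# Values of the elements fixed by inertia, unramified primes of `K`

PROOFS.
* `val_prime`: see the proofs of `toa_sq` and `unr_base` in MP_1a91b9_nuT/DS/Tower.lean (for `k = K`; copy what you need as private lemmas; there `od v (ℓ : k) = 1` is proved). In short: (i) `y ^ 2 = l * z` in `𝓞 K` implies `l ∣ y`: `y = m + n ta`, `z = m' + n' ta` (`exists_coords`), `ta ^ 2 = tr ta - nm` (`ta_quad`), `coords_inj`: `m ^ 2 - nm n ^ 2 = l m'`,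
  `2 m n + tr n ^ 2 = l n'`; `l ∣ n (2 m + tr n)`; if `l ∣ 2 m + tr n` then `l ∣ n ^ 2 (tr ^ 2 - 4 nm)` as `n ^ 2 (tr ^ 2 - 4 nm) = 4 (m ^ 2 - nm n ^ 2) - (2 m + tr n)(2 m - tr n)`, so `l ∣ n`; then `l ∣ m ^ 2`. (ii) `P.valuation K l = exp (-a)` with `a ≥ 1` (`P.valuation_lt_one_iff_mem`, `valuation_le_one`); if `a ≥ 2` then `P ^ 2 ∣ (l)` as ideals,
  `(l) = P ^ 2 * J`, the ideal `P * J` has `(P * J) ^ 2 ⊆ (l)`; take `y ∈ P * J`: `y ^ 2 ∈ (l)` so `y ∈ (l)` by (i): `P * J ≤ (l) = P * (P * J)`, so `P * J * P ∣ P * J`, `P ∣ 1`: contradiction.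
* `val_fixed`: `M = IntermediateField.adjoin K {D}`: finite over `K` (`D` is integral: root of `X ^ 2 - d`), a number field (`NumberField M`: finite over `K`; as in GL/AbsV.lean `val_of_le`), Galois over `K` (splitting field of `X ^ 2 - d`: normal since `-D ∈ M`; e.g. `IsGalois.of_separable_splitting_field` or `normal` by: every `K`-embedding of `M` in `Kb` maps `D` to `D` or `-D`:
  `IntermediateField.normal_iff_forall_map_le`, and separable by characteristic zero). `abv_under hV (M := M)`: a place `w` of `M` above `P` with `Abv w V`. Let `x = algebraMap K M a + algebraMap K M b * D'`, `D' : M` the generator. For `ρ : Gal(M/K)` with `∀ y : 𝓞 M, ρ • y - y ∈ w.asIdeal`: `in_lift hw hρ`: `τ : Kb ≃ₐ[K] Kb` with `IsFr V 1 τ` and `τ (algebraMap M Kb y) = algebraMap M Kb (ρ y)`;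
  `τ D = D` by `h`, so `ρ D' = D'` and `ρ x = x`. `GM.val_inert (w := w) (x := x)` gives `y : K` with `w.valuation M (algebraMap K M y) = w.valuation M x`. If `x = 0`: `y = 0`. Otherwise the quotient has value one, so `V.valuation (algebraMap M Kb (algebraMap K M y / x)) = 1` by `abv_eq`, which is the claim (`IsScalarTower.algebraMap_apply`, `map_div₀`, `div_eq_one_iff_eq`).
-/

set_option autoImplicit false

namespace Pool.Agent.Lib.MP_1a91b9_nuX.HW

open NumberField IsDedekindDomain WeierstrassCurve Pool.Agent.Lib.MP_1a91b9_nuT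
open Pool.Agent.Lib.MP_1a91b9_nuX.DB Pool.Agent.Lib.MP_1a91b9_nuX.GL

variable [CD] {P : HeightOneSpectrum (𝓞 K)}

/-- an integer whose square is divisible by `l` is divisible by `l` -/
private theorem unr_sq {l : ℕ} (hl : l.Prime) (hd : ¬ (l : ℤ) ∣ CD.tr ^ 2 - 4 * CD.nm)
    {y z : 𝓞 K} (h : y ^ 2 = (l : 𝓞 K) * z) : (l : 𝓞 K) ∣ y := by
  obtain ⟨m, n, hy⟩ := exists_coords y
  obtain ⟨m', n', hz⟩ := exists_coords z
  have h1 : ((m ^ 2 - CD.nm * n ^ 2 : ℤ) : 𝓞 K) + ((2 * m * n + CD.tr * n ^ 2 : ℤ) : 𝓞 K) * ta =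
      ((l * m' : ℤ) : 𝓞 K) + ((l * n' : ℤ) : 𝓞 K) * ta := by
    rw [hy, hz] at h
    have hq := ta_quad
    push_cast
    linear_combination h - (n : 𝓞 K) ^ 2 * hq
  obtain ⟨h2, h3⟩ := coords_inj h1
  have hp : Prime (l : ℤ) := Nat.prime_iff_prime_int.1 hl
  have hn : (l : ℤ) ∣ n := by
    have h4 : (l : ℤ) ∣ n * (2 * m + CD.tr * n) := ⟨n', by linear_combination h3⟩
    rcases hp.dvd_or_dvd h4 with h5 | h5
    · exact h5
    · obtain ⟨c, hc⟩ := h5
      have h6 : (l : ℤ) ∣ n ^ 2 * (CD.tr ^ 2 - 4 * CD.nm) := by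
        refine ⟨4 * m' - c * (2 * m - CD.tr * n), ?_⟩
        linear_combination 4 * h2 - (2 * m - CD.tr * n) * hc
      rcases hp.dvd_or_dvd h6 with h7 | h7
      · exact hp.dvd_of_dvd_pow h7
      · exact absurd h7 hd
  have hm : (l : ℤ) ∣ m := by
    apply hp.dvd_of_dvd_pow (n := 2)
    obtain ⟨c, hc⟩ := hn
    refine ⟨m' + CD.nm * n * c, ?_⟩
    linear_combination h2 + CD.nm * n * hc
  obtain ⟨⟨m1, hm1⟩, ⟨n1, hn1⟩⟩ := And.intro hm hn
  refine ⟨(m1 : 𝓞 K) + (n1 : 𝓞 K) * ta, ?_⟩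
  rw [hy, hm1, hn1]
  push_cast
  ring

/-- `K` is unramified at the primes not dividing the discriminant -/
theorem val_prime {l : ℕ} (hl : l.Prime) (hd : ¬ (l : ℤ) ∣ CD.tr ^ 2 - 4 * CD.nm)
    (hP : (l : 𝓞 K) ∈ P.asIdeal) : P.valuation K (l : K) = WithZero.exp (-1 : ℤ) := by
  have hl0 : (l : K) ≠ 0 := Nat.cast_ne_zero.2 hl.ne_zero
  have hl0' : (l : 𝓞 K) ≠ 0 := Nat.cast_ne_zero.2 hl.ne_zero
  have e0 : algebraMap (𝓞 K) K (l : 𝓞 K) = (l : K) := map_natCast (algebraMap (𝓞 K) K) l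
  obtain ⟨a, ha⟩ : ∃ a : ℤ, P.valuation K (l : K) = WithZero.exp a :=
    ⟨_, (WithZero.exp_log ((Valuation.ne_zero_iff _).2 hl0)).symm⟩
  have h1 : a < 0 := by
    have h2 : P.valuation K (algebraMap (𝓞 K) K (l : 𝓞 K)) < 1 :=
      (P.valuation_lt_one_iff_mem (K := K) (l : 𝓞 K)).2 hP
    rw [e0, ha, ← WithZero.exp_zero, WithZero.exp_lt_exp] at h2
    exact h2
  rw [ha]
  by_contra hne
  have hne' : a ≠ -1 := by
    rintro rfl
    exact hne rfl
  have h3 : (l : 𝓞 K) ∈ P.asIdeal ^ 2 := by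
    rw [← P.intValuation_le_pow_iff_mem, ← P.valuation_of_algebraMap (K := K)]
    change P.valuation K (algebraMap (𝓞 K) K (l : 𝓞 K)) ≤ _
    rw [e0, ha, WithZero.exp_le_exp]
    push_cast
    omega
  have h4 : P.asIdeal ^ 2 ∣ Ideal.span {(l : 𝓞 K)} := by
    rw [Ideal.dvd_span_singleton]
    exact h3
  obtain ⟨J, hJ⟩ := h4
  have hJ0 : J ≠ 0 := by
    rintro rfl
    rw [mul_zero, Ideal.zero_eq_bot, Ideal.span_singleton_eq_bot] at hJ
    exact hl0' hJ
  have hle : ¬ P.asIdeal * J ≤ Ideal.span {(l : 𝓞 K)} := by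
    intro h6
    have h7 : Ideal.span {(l : 𝓞 K)} ∣ P.asIdeal * J := Ideal.dvd_iff_le.2 h6
    rw [hJ, pow_two, mul_assoc] at h7
    have h8 : P.asIdeal * (P.asIdeal * J) ∣ 1 * (P.asIdeal * J) := by rwa [one_mul]
    have h9 : P.asIdeal ∣ 1 :=
      (mul_dvd_mul_iff_right (mul_ne_zero P.ne_bot hJ0)).1 h8
    have h10 : P.asIdeal = ⊤ := by
      rw [← Ideal.one_eq_top]
      exact le_antisymm (by rw [Ideal.one_eq_top]; exact le_top) (Ideal.dvd_iff_le.1 h9)
    exact P.isPrime.ne_top h10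
  obtain ⟨y, hy1, hy2⟩ := SetLike.not_le_iff_exists.1 hle
  have h6 : y ^ 2 ∈ Ideal.span {(l : 𝓞 K)} := by
    have h7 : y * y ∈ (P.asIdeal * J) * (P.asIdeal * J) := Ideal.mul_mem_mul hy1 hy1
    have e : (P.asIdeal * J) * (P.asIdeal * J) = Ideal.span {(l : 𝓞 K)} * J := by
      rw [hJ, pow_two, mul_mul_mul_comm, mul_assoc (P.asIdeal * P.asIdeal) J J]
    have h8 : Ideal.span {(l : 𝓞 K)} * J ≤ Ideal.span {(l : 𝓞 K)} := Ideal.mul_le_left
    rw [pow_two]
    rw [e] at h7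
    exact h8 h7
  obtain ⟨z, hz⟩ := Ideal.mem_span_singleton.1 h6
  exact hy2 (Ideal.mem_span_singleton.2 (unr_sq hl hd hz))

/-- the elements of `K(D)` have values in the value group of `K`, if inertia fixes `D` -/
theorem val_fixed {V : ValuationSubring Kb} (hV : Abv P V) {D : Kb} {d : ℤ}
    (hD : D ^ 2 = (d : Kb)) (h : ∀ σ : Kb ≃ₐ[K] Kb, IsFr V 1 σ → σ D = D) (a b : K) :
    ∃ y : K, V.valuation (algebraMap K Kb y) =
      V.valuation (algebraMap K Kb a + algebraMap K Kb b * D) := by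
  have : IsAlgClosure K Kb := ⟨inferInstance, inferInstance⟩
  have : Normal K Kb := IsAlgClosure.normal K Kb
  have hint : IsIntegral K D := Algebra.IsIntegral.isIntegral D
  have hfin : FiniteDimensional K (IntermediateField.adjoin K {D}) :=
    IntermediateField.adjoin.finiteDimensional hint
  have hnf : NumberField (IntermediateField.adjoin K {D}) := NumberField.of_module_finite K _
  have hmem : D ∈ IntermediateField.adjoin K {D} := IntermediateField.mem_adjoin_simple_self K D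
  have hnor : Normal K (IntermediateField.adjoin K {D}) := by
    rw [IntermediateField.normal_iff_forall_map_le]
    intro σ
    rw [IntermediateField.adjoin_map, Set.image_singleton, IntermediateField.adjoin_simple_le_iff]
    have h1 : (σ D) ^ 2 = D ^ 2 := by
      rw [← map_pow, hD, map_intCast]
    rcases sq_eq_sq_iff_eq_or_eq_neg.1 h1 with h2 | h2
    · rw [h2]
      exact hmem
    · rw [h2]
      exact neg_mem hmem
  have hgal : IsGalois K (IntermediateField.adjoin K {D}) := { }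
  obtain ⟨w, _, hw⟩ := abv_under (M := IntermediateField.adjoin K {D}) hV
  obtain ⟨D', hD'⟩ : ∃ D' : IntermediateField.adjoin K {D},
      algebraMap (IntermediateField.adjoin K {D}) Kb D' = D := ⟨⟨D, hmem⟩, rfl⟩
  obtain ⟨x, hx⟩ : ∃ x : IntermediateField.adjoin K {D},
      x = algebraMap K _ a + algebraMap K _ b * D' := ⟨_, rfl⟩
  have hxK : algebraMap (IntermediateField.adjoin K {D}) Kb x =
      algebraMap K Kb a + algebraMap K Kb b * D := by
    rw [hx, map_add, map_mul, hD', ← IsScalarTower.algebraMap_apply,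
      ← IsScalarTower.algebraMap_apply]
  obtain ⟨y, hy⟩ := GM.val_inert (k := K) (w := w) (x := x) (by
    intro ρ hρ
    obtain ⟨τ, hτ, hτ2⟩ := in_lift (k := K) hw hρ
    have h1 : ρ D' = D' := by
      apply (algebraMap (IntermediateField.adjoin K {D}) Kb).injective
      rw [← hτ2, hD', h τ hτ]
    rw [hx, map_add, map_mul, AlgEquiv.commutes, AlgEquiv.commutes, h1])
  refine ⟨y, ?_⟩
  rw [← hxK]
  rcases eq_or_ne x 0 with h0 | h0
  · rw [h0, map_zero, Valuation.zero_iff, map_eq_zero] at hy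
    rw [h0, hy, map_zero, map_zero, map_zero, map_zero]
  · have h1 : w.valuation (IntermediateField.adjoin K {D})
        (algebraMap K (IntermediateField.adjoin K {D}) y / x) = 1 := by
      rw [map_div₀, hy, div_self ((Valuation.ne_zero_iff _).2 h0)]
    have h2 := (abv_eq hw _).2 h1
    rw [map_div₀, map_div₀, ← IsScalarTower.algebraMap_apply, div_eq_one_iff_eq] at h2
    · exact h2
    · rw [Valuation.ne_zero_iff]
      exact (map_ne_zero _).2 h0

end Pool.Agent.Lib.MP_1a91b9_nuX.HW
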